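import Pool.Agent.Y720.WC.C7
import Mathlib.Analysis.Polynomial.Factorization

/-!
# The two sheets of a positive quartic and the doubles of the points of its Jacobian (helper720)
-/

set_option autoImplicit false
set_option linter.unusedVariables false
set_option linter.unusedSectionVars false

open WeierstrassCurve Filter Topology

namespace Pool.Agent.Y720.MZ

lemma coef4 {c₀ c₁ c₂ c₃ d₀ d₁ d₂ d₃ : ℝ}
    (h : (Polynomial.X ^ 4 + Polynomial.C c₃ * Polynomial.X ^ 3 +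
      Polynomial.C c₂ * Polynomial.X ^ 2 + Polynomial.C c₁ * Polynomial.X + Polynomial.C c₀ :
        Polynomial ℝ) = Polynomial.X ^ 4 + Polynomial.C d₃ * Polynomial.X ^ 3 +
      Polynomial.C d₂ * Polynomial.X ^ 2 + Polynomial.C d₁ * Polynomial.X + Polynomial.C d₀) :
    c₃ = d₃ ∧ c₂ = d₂ ∧ c₁ = d₁ ∧ c₀ = d₀ := by
  refine ⟨?_, ?_, ?_, ?_⟩
  · have := congrArg (fun g => Polynomial.coeff g 3) h
    simpa [Polynomial.coeff_X, Polynomial.coeff_C] using this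
  · have := congrArg (fun g => Polynomial.coeff g 2) h
    simpa [Polynomial.coeff_X, Polynomial.coeff_C] using this
  · have := congrArg (fun g => Polynomial.coeff g 1) h
    simpa [Polynomial.coeff_X, Polynomial.coeff_C] using this
  · have := congrArg (fun g => Polynomial.coeff g 0) h
    simpa [Polynomial.coeff_X, Polynomial.coeff_C] using this

/-- factorization of a quartic into two quadratic polynomials -/
lemma quart_fac {c₀ c₁ c₂ c₃ : ℝ} : ∃ a b a' b' : ℝ, c₃ = a + a' ∧ c₂ = b + b' + a * a' ∧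
    c₁ = a * b' + a' * b ∧ c₀ = b * b' := by
  set f : Polynomial ℝ := Polynomial.X ^ 4 + Polynomial.C c₃ * Polynomial.X ^ 3 +
    Polynomial.C c₂ * Polynomial.X ^ 2 + Polynomial.C c₁ * Polynomial.X + Polynomial.C c₀ with hf
  have hm : Polynomial.IsMonicOfDegree f (2 + 2) := by
    constructor
    · rw [hf]; compute_degree!
    · rw [hf]; monicity!
  obtain ⟨f₁, f₂, h1, h2, h3⟩ := hm.eq_isMonicOfDegree_two_mul_isMonicOfDegree
  obtain ⟨a, b, rfl⟩ := Polynomial.isMonicOfDegree_two_iff.1 h1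
  obtain ⟨a', b', rfl⟩ := Polynomial.isMonicOfDegree_two_iff.1 h2
  have h4 : f = Polynomial.X ^ 4 + Polynomial.C (a + a') * Polynomial.X ^ 3 +
      Polynomial.C (b + b' + a * a') * Polynomial.X ^ 2 +
      Polynomial.C (a * b' + a' * b) * Polynomial.X + Polynomial.C (b * b') := by
    rw [h3]
    simp only [map_add, map_mul]
    ring
  rw [hf] at h4
  exact ⟨a, b, a', b', coef4 h4⟩

/-- a quadratic polynomial without zeros -/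
lemma quad_pos {a b : ℝ} (h : ∀ t : ℝ, t ^ 2 + a * t + b ≠ 0) :
    ∃ r s : ℝ, a = -2 * r ∧ b = r ^ 2 + s ^ 2 ∧ 0 < b := by
  have hd : 0 < b - a ^ 2 / 4 := by
    by_contra hcon
    push Not at hcon
    refine h (-a / 2 + Real.sqrt (a ^ 2 / 4 - b)) ?_
    have h1 : Real.sqrt (a ^ 2 / 4 - b) ^ 2 = a ^ 2 / 4 - b := Real.sq_sqrt (by linarith)
    linear_combination h1
  refine ⟨-a / 2, Real.sqrt (b - a ^ 2 / 4), by ring, ?_, by nlinarith [sq_nonneg a]⟩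
  rw [Real.sq_sqrt hd.le]
  ring

/-- a quadratic form which separates the two sheets of a positive quartic -/
theorem kap_ex {w q₁ q₂ q₃ q₄ : ℝ} (h4 : q₄ ≠ 0)
    (h : ∀ t : ℝ, 0 < w ^ 2 + q₁ * t + q₂ * t ^ 2 + q₃ * t ^ 3 + q₄ * t ^ 4) :
    ∃ κ : ℝ, ∀ t : ℝ, 0 ≤ (4 * w ^ 2 * q₂ - q₁ ^ 2 - 4 * w ^ 2 * κ) +
      (4 * w ^ 2 * q₃ - 2 * q₁ * κ) * t + (4 * w ^ 2 * q₄ - κ ^ 2) * t ^ 2 := by
  obtain ⟨a, b, a', b', e3, e2, e1, e0⟩ := quart_fac (c₀ := w ^ 2 / q₄) (c₁ := q₁ / q₄)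
    (c₂ := q₂ / q₄) (c₃ := q₃ / q₄)
  rw [div_eq_iff h4] at e0 e1 e2 e3
  have key : ∀ t : ℝ, w ^ 2 + q₁ * t + q₂ * t ^ 2 + q₃ * t ^ 3 + q₄ * t ^ 4 =
      q₄ * ((t ^ 2 + a * t + b) * (t ^ 2 + a' * t + b')) := by
    intro t
    rw [e0, e1, e2, e3]; ring
  obtain ⟨r, s, rfl, rfl, -⟩ := quad_pos (a := a) (b := b) fun t h0 => by
    have := h t
    rw [key, h0] at this
    simp at this
  obtain ⟨r', s', rfl, rfl, -⟩ := quad_pos (a := a') (b := b') fun t h0 => by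
    have := h t
    rw [key, h0] at this
    simp at this
  refine ⟨2 * q₄ * (r * r' - s * s'), fun t => ?_⟩
  have e : (4 * w ^ 2 * q₂ - q₁ ^ 2 - 4 * w ^ 2 * (2 * q₄ * (r * r' - s * s'))) +
      (4 * w ^ 2 * q₃ - 2 * q₁ * (2 * q₄ * (r * r' - s * s'))) * t +
      (4 * w ^ 2 * q₄ - (2 * q₄ * (r * r' - s * s')) ^ 2) * t ^ 2 =
      (2 * q₄ * (((r ^ 2 + s ^ 2) * s' + (r' ^ 2 + s' ^ 2) * s) - t * (r * s' + r' * s))) ^ 2 := by
    rw [e0, e1, e2, e3]; ring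
  rw [e]
  positivity

/-- the value of the resolvent cubic -/
lemma kap_cub {w q₁ q₂ q₃ q₄ κ : ℝ} (hw : w ≠ 0)
    (h : ∀ t : ℝ, 0 ≤ (4 * w ^ 2 * q₂ - q₁ ^ 2 - 4 * w ^ 2 * κ) +
      (4 * w ^ 2 * q₃ - 2 * q₁ * κ) * t + (4 * w ^ 2 * q₄ - κ ^ 2) * t ^ 2) :
    (-κ) ^ 3 + q₂ * (-κ) ^ 2 + rb w q₁ q₃ q₄ * (-κ) + rc w q₁ q₂ q₃ q₄ ≤ 0 := by
  have h1 := discrim_le_zero (a := 4 * w ^ 2 * q₄ - κ ^ 2) (b := 4 * w ^ 2 * q₃ - 2 * q₁ * κ)
    (c := 4 * w ^ 2 * q₂ - q₁ ^ 2 - 4 * w ^ 2 * κ) fun t => by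
      have := h t
      nlinarith
  have e : discrim (4 * w ^ 2 * q₄ - κ ^ 2) (4 * w ^ 2 * q₃ - 2 * q₁ * κ)
      (4 * w ^ 2 * q₂ - q₁ ^ 2 - 4 * w ^ 2 * κ) = 16 * w ^ 2 *
      ((-κ) ^ 3 + q₂ * (-κ) ^ 2 + rb w q₁ q₃ q₄ * (-κ) + rc w q₁ q₂ q₃ q₄) := by
    unfold discrim rb rc; ring
  rw [e] at h1
  have h2 : 0 < 16 * w ^ 2 := by positivity
  by_contra hcon
  push Not at hcon
  have := mul_pos h2 hcon
  linarith

/-- the abscissa and the sheet -/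
lemma sheet {w q₁ q₂ q₃ q₄ κ t Y x : ℝ} (hw : w ≠ 0) (ht : t ≠ 0)
    (h : 0 ≤ (4 * w ^ 2 * q₂ - q₁ ^ 2 - 4 * w ^ 2 * κ) +
      (4 * w ^ 2 * q₃ - 2 * q₁ * κ) * t + (4 * w ^ 2 * q₄ - κ ^ 2) * t ^ 2)
    (hY : Y ^ 2 = w ^ 2 + q₁ * t + q₂ * t ^ 2 + q₃ * t ^ 3 + q₄ * t ^ 4) (hY0 : Y ≠ 0)
    (hx : t ^ 2 * x = 2 * w * (Y + w) + q₁ * t) (hκ : -κ < x) : 0 < w * Y := by
  by_contra hcon
  push Not at hcon
  have hwY : w * Y < 0 := lt_of_le_of_ne hcon (mul_ne_zero hw hY0)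
  set S := 2 * w ^ 2 + q₁ * t + κ * t ^ 2 with hS
  have ht2 : 0 < t ^ 2 := by positivity
  have h1 : S ^ 2 ≤ (2 * (w * Y)) ^ 2 := by
    have e : (2 * (w * Y)) ^ 2 - S ^ 2 = t ^ 2 * ((4 * w ^ 2 * q₂ - q₁ ^ 2 - 4 * w ^ 2 * κ) +
      (4 * w ^ 2 * q₃ - 2 * q₁ * κ) * t + (4 * w ^ 2 * q₄ - κ ^ 2) * t ^ 2) := by
      rw [hS]; linear_combination (4 * w ^ 2) * hY
    have := mul_nonneg ht2.le h
    linarith
  have h2 : 0 < 2 * (w * Y) + S := by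
    have e : 2 * (w * Y) + S = t ^ 2 * (x + κ) := by rw [hS]; linear_combination -hx
    rw [e]
    exact mul_pos ht2 (by linarith)
  have h3 : 0 < S := by linarith
  nlinarith

/-- the abscissa of a double -/
lemma dbl_ge {a b c x y ℓ ξ : ℝ} (hxy : y ^ 2 = x ^ 3 + a * x ^ 2 + b * x + c) (hy : y ≠ 0)
    (hℓ : ℓ * (2 * y) = 3 * x ^ 2 + 2 * a * x + b) (hξ : ξ ^ 3 + a * ξ ^ 2 + b * ξ + c ≤ 0) :
    ξ ≤ ℓ ^ 2 - a - x - x := by
  have hne : ξ ≠ x := by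
    rintro rfl
    rw [← hxy] at hξ
    have : 0 < y ^ 2 := by positivity
    linarith
  have h0 : 0 < (ξ - x) ^ 2 := by
    have := sub_ne_zero.2 hne
    positivity
  have e : (ξ - x) ^ 2 * ((ℓ ^ 2 - a - x - x) - ξ) = (ℓ * (ξ - x) + y) ^ 2 -
      (ξ ^ 3 + a * ξ ^ 2 + b * ξ + c) := by
    linear_combination (-(ξ - x)) * hℓ - hxy
  have h1 : 0 ≤ (ξ - x) ^ 2 * ((ℓ ^ 2 - a - x - x) - ξ) := by
    rw [e]
    have := sq_nonneg (ℓ * (ξ - x) + y)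
    linarith
  by_contra hcon
  push Not at hcon
  have := mul_neg_of_pos_of_neg h0 (sub_neg.2 hcon)
  linarith

end Pool.Agent.Y720.MZ
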