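import Pool.Agent.Y720.WF.R1

/-!
# Rational points on one sheet of a positive curve of genus one of type II are dense (helper720)
-/

set_option autoImplicit false
set_option linter.unusedVariables false
set_option linter.unusedSectionVars false

open WeierstrassCurve Filter Topology

namespace Pool.Agent.Y720.MZ

variable {K : Type*} [Field K] [CharZero K] {ι : Type*} [Fintype ι] {p : ι → ℕ}
  [hp : ∀ i, Fact (p i).Prime] {σ : ∀ i, K →+* ℚ_[p i]} {τ : K →+* ℝ}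

lemma Cu.dbl_one [DecidableEq K] {q : ℕ} [hq : Fact q.Prime] {σ : K →+* ℚ_[q]} {a b c e : K}
    (h : Cu (av σ) ‖(q : ℚ_[q])‖ a b c e) {R : Pt a b c} (hR : av σ (Te e R) = 1) :
    av σ (Te e (2 • R)) = 1 := by
  have h1 := h.mul_sub R 2
  rw [hR, mul_one, mul_one] at h1
  have e1 : Te e (2 • R) = ((2 : ℕ) : K) * Te e R + (Te e (2 • R) - ((2 : ℕ) : K) * Te e R) := by
    ring
  have v2 : av σ (((2 : ℕ) : K) * Te e R) = 1 := by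
    rw [map_mul, hR, mul_one]
    have := h.v2
    exact_mod_cast this
  rw [e1, na_eq h.na, v2]
  rw [v2]
  exact h1.trans_lt h.ε1

/-- the sign of the ordinate of a double -/
theorem sheet_pos {θ : K × (Fin 4 → K)} (hw : θ.1 ≠ 0)
    (hpos : ∀ t : ℝ, 0 < qv (τ θ.1) (fun j => τ (θ.2 j)) t) (h4 : θ.2 3 ≠ 0) {x y ℓ X W : K}
    (hxy : y ^ 2 = x ^ 3 + tA θ * x ^ 2 + tB θ * x + tC θ) (hy : y ≠ 0)
    (hℓ : ℓ * (2 * y) = 3 * x ^ 2 + 2 * tA θ * x + tB θ) (hX : X = ℓ ^ 2 - tA θ - x - x)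
    (hXW : W ^ 2 = X ^ 3 + tA θ * X ^ 2 + tB θ * X + tC θ) (hW : W ≠ 0)
    (hD : Df θ.1 (θ.2 0) (θ.2 2) X W ≠ 0) (hne : X ≠ tX θ) :
    0 < τ θ.1 * τ (Yf θ.1 (θ.2 0) (θ.2 1) (θ.2 2) X W) := by
  have hτ : ∀ z : K, z ≠ 0 → τ z ≠ 0 := fun z hz => (map_ne_zero τ).2 hz
  obtain ⟨κ, hκ⟩ := kap_ex (w := τ θ.1) (q₁ := τ (θ.2 0)) (q₂ := τ (θ.2 1)) (q₃ := τ (θ.2 2))
    (q₄ := τ (θ.2 3)) (hτ _ h4) hpos
  have hc := kap_cub (hτ _ hw) hκ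
  have mB : τ (tB θ) = rb (τ θ.1) (τ (θ.2 0)) (τ (θ.2 2)) (τ (θ.2 3)) := by
    have : tB θ = rb θ.1 (θ.2 0) (θ.2 2) (θ.2 3) := rfl
    rw [this]; simp [rb, map_ofNat]
  have mC : τ (tC θ) = rc (τ θ.1) (τ (θ.2 0)) (τ (θ.2 1)) (τ (θ.2 2)) (τ (θ.2 3)) := by
    have : tC θ = rc θ.1 (θ.2 0) (θ.2 1) (θ.2 2) (θ.2 3) := rfl
    rw [this]; simp [rc, map_ofNat]
  have mA : τ (tA θ) = τ (θ.2 1) := rfl
  rw [← mB, ← mC, ← mA] at hc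
  have r1 := congrArg τ hxy
  have r2 := congrArg τ hℓ
  have r3 := congrArg τ hXW
  simp only [map_add, map_mul, map_pow, map_ofNat] at r1 r2 r3
  have hge := dbl_ge r1 (hτ _ hy) r2 hc
  have e1 : τ X = τ ℓ ^ 2 - τ (tA θ) - τ x - τ x := by
    rw [hX]; simp only [map_sub, map_pow]
  rw [← e1] at hge
  have hlt : -κ < τ X := by
    refine lt_of_le_of_ne hge fun h0 => ?_
    rw [h0, ← r3] at hc
    have : 0 < τ W ^ 2 := by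
      have := hτ _ hW
      positivity
    linarith
  -- the parameter is not zero
  have ht : tf θ.1 (θ.2 0) (θ.2 1) (θ.2 2) X W ≠ 0 := by
    intro h0
    rw [tf, div_eq_zero_iff] at h0
    rcases h0 with h0 | h0
    · apply hne
      have : tX θ = xs θ.1 (θ.2 0) (θ.2 1) := rfl
      rw [this]
      unfold Nf at h0
      unfold xs
      field_simp
      linear_combination h0
    · exact hD h0
  have hYe : (Yf θ.1 (θ.2 0) (θ.2 1) (θ.2 2) X W) ^ 2 = θ.1 ^ 2 +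
      θ.2 0 * tf θ.1 (θ.2 0) (θ.2 1) (θ.2 2) X W + θ.2 1 * tf θ.1 (θ.2 0) (θ.2 1) (θ.2 2) X W ^ 2 +
      θ.2 2 * tf θ.1 (θ.2 0) (θ.2 1) (θ.2 2) X W ^ 3 +
      θ.2 3 * tf θ.1 (θ.2 0) (θ.2 1) (θ.2 2) X W ^ 4 := Yf_eqn hw hXW hD
  have h2w : 2 * θ.1 ≠ 0 := mul_ne_zero two_ne_zero hw
  have hx : (tf θ.1 (θ.2 0) (θ.2 1) (θ.2 2) X W) ^ 2 * X = 2 * θ.1 *
      (Yf θ.1 (θ.2 0) (θ.2 1) (θ.2 2) X W + θ.1) +
      θ.2 0 * tf θ.1 (θ.2 0) (θ.2 1) (θ.2 2) X W := by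
    rw [Yf]
    field_simp
    ring
  generalize tf θ.1 (θ.2 0) (θ.2 1) (θ.2 2) X W = t at ht hYe hx
  generalize Yf θ.1 (θ.2 0) (θ.2 1) (θ.2 2) X W = Y at hYe hx
  have s1 := congrArg τ hYe
  have s2 := congrArg τ hx
  simp only [map_add, map_mul, map_pow, map_ofNat] at s1 s2
  have hY0 : τ Y ≠ 0 := by
    intro h0
    have h5 := hpos (τ t)
    unfold qv at h5
    simp only [] at h5
    rw [← s1, h0] at h5
    norm_num at h5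
  exact sheet (hτ _ hw) (hτ _ ht) (hκ (τ t)) s1 hY0 s2 hlt

/-- **The rational points on one sheet of a curve of type II are dense.** -/
theorem fib_pos [Nonempty ι] (hinj : Function.Injective p) {θ : K × (Fin 4 → K)} (hw : θ.1 ≠ 0)
    {e : ι → K}
    (h : ∀ i, Cu (av (σ i)) ‖(p i : ℚ_[p i])‖ (tA θ) (tB θ) (tC θ) (e i))
    (hD : ∀ i, ‖σ i (tX θ - e i)‖ = 1)
    (hpos : ∀ t : ℝ, 0 < qv (τ θ.1) (fun j => τ (θ.2 j)) t) (h4 : θ.2 3 ≠ 0)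
    {t Y : ∀ i, ℚ_[p i]}
    (hY : ∀ i, Y i ^ 2 = qv (σ i θ.1) (fun j => σ i (θ.2 j)) (t i)) (hY0 : ∀ i, Y i ≠ 0) {η : ℝ}
    (hη : 0 < η) : ∃ s Z : K, Z ^ 2 = qv θ.1 θ.2 s ∧ 0 < τ θ.1 * τ Z ∧ ∀ i, ‖σ i s - t i‖ < η ∧
      ‖σ i Z - Y i‖ < η := by
  classical
  obtain ⟨i₀⟩ := ‹Nonempty ι›
  have heq : tY θ ^ 2 = tX θ ^ 3 + tA θ * tX θ ^ 2 + tB θ * tX θ + tC θ := s_eqn hw
  have hy0 : tY θ ≠ 0 := ((h i₀).ts heq).1
  have hns : (cv (tA θ) (tB θ) (tC θ)).toAffine.Nonsingular (tX θ) (tY θ) :=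
    cv_ns.2 ⟨heq, Or.inr (mul_ne_zero two_ne_zero hy0)⟩
  set R : Pt (tA θ) (tB θ) (tC θ) := .some _ _ hns with hR
  have hR0 : R ≠ 0 := by rw [hR]; intro h0; exact absurd h0 (by simp)
  have htf : ∀ n : ℕ, n ≠ 0 → n • R ≠ 0 := fun n hn => (h i₀).tf hR0 hn
  have hR1 : ∀ i, av (σ i) (Te (e i) R) = 1 := by
    intro i
    obtain ⟨h1, h2⟩ := (h i).shape heq
    have h3 : av (σ i) (tX θ - e i) = 1 := hD i
    rw [h3, one_pow] at h2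
    have h4 : av (σ i) (tY θ) = 1 := by
      have h5 : av (σ i) (tY θ) ^ 2 = 1 ^ 2 := by rw [h2, one_pow]
      exact (pow_left_inj₀ ((av (σ i)).nonneg _) zero_le_one two_ne_zero).1 h5
    rw [hR, Te_some, map_div₀, h3, h4, div_one]
  have hR2 : ∀ i, av (σ i) (Te (e i) (2 • R)) = 1 := fun i => (h i).dbl_one (hR1 i)
  -- the local points of the resolvents
  have hb : ∀ i, ∃ t' Y' x y : ℚ_[p i], ‖t' - t i‖ < η / 2 ∧ ‖Y' - Y i‖ < η / 2 ∧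
      y ^ 2 = x ^ 3 + σ i (θ.2 1) * x ^ 2 + rb (σ i θ.1) (σ i (θ.2 0)) (σ i (θ.2 2))
        (σ i (θ.2 3)) * x + rc (σ i θ.1) (σ i (θ.2 0)) (σ i (θ.2 1)) (σ i (θ.2 2))
        (σ i (θ.2 3)) ∧
      Df (σ i θ.1) (σ i (θ.2 0)) (σ i (θ.2 2)) x y ≠ 0 ∧
      t' = tf (σ i θ.1) (σ i (θ.2 0)) (σ i (θ.2 1)) (σ i (θ.2 2)) x y ∧
      Y' = Yf (σ i θ.1) (σ i (θ.2 0)) (σ i (θ.2 1)) (σ i (θ.2 2)) x y := by
    intro i
    refine Cu.back (w := σ i θ.1) ((map_ne_zero _).2 hw) ?_ (hY i) (hY0 i) (half_pos hη)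
    have : ys (σ i θ.1) (σ i (θ.2 0)) (σ i (θ.2 1)) (σ i (θ.2 2)) = σ i (tY θ) := by
      simp [tY, ys, xs, map_ofNat]
    rw [this]
    exact (map_ne_zero _).2 hy0
  choose t' Y' x y b1 b2 b3 b4 b5 b6 using hb
  choose ηp hηp hcc using fun i => Cu.conv (σ := σ i) (w := θ.1) (q₁ := θ.2 0) (q₂ := θ.2 1)
    (q₃ := θ.2 2) (q₄ := θ.2 3) (h i) hw (b3 i) (b4 i) (half_pos hη)
  obtain ⟨η₁, hη₁, hη₁p⟩ := fin_min hηp
  -- the targets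
  have hBL := fun i => (h i).to_map (σ i) padic_disc padic_nsq
  have hts : ∀ i, ‖(x i - σ i (e i)) / y i‖ ≤ 1 ∧ y i ≠ 0 := by
    intro i
    have h1 := hBL i
    have hrb : σ i (tB θ) = rb (σ i θ.1) (σ i (θ.2 0)) (σ i (θ.2 2)) (σ i (θ.2 3)) := by
      simp [tB, rb, map_ofNat]
    have hrc : σ i (tC θ) = rc (σ i θ.1) (σ i (θ.2 0)) (σ i (θ.2 1)) (σ i (θ.2 2))
        (σ i (θ.2 3)) := by
      simp [tC, rc, map_ofNat]
    rw [hrb, hrc] at h1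
    obtain ⟨c1, c2, -, -⟩ := h1.ts (b3 i)
    exact ⟨c2, c1⟩
  -- avoid the origin
  obtain ⟨ρ, hρ, hρp⟩ := fin_min (f := fun i => ‖(p i : ℚ_[p i])‖) fun i => norm_p_pos
  have hz : ∀ i, ∃ ξ : ℚ_[p i], ‖ξ‖ ≤ 1 ∧ ‖ξ - (x i - σ i (e i)) / y i‖ < η₁ ∧ ξ ≠ 0 := by
    intro i
    by_cases h0 : (x i - σ i (e i)) / y i = 0
    · obtain ⟨J, hJ⟩ := ((tendsto_pow_atTop_nhds_zero_of_lt_one (norm_nonneg _)
        (norm_p_lt (p := p i))).eventually_lt_const hη₁).exists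
      refine ⟨(p i : ℚ_[p i]) ^ J, ?_, ?_, pow_ne_zero _ (by exact_mod_cast (hp i).out.ne_zero)⟩
      · rw [norm_pow]; exact pow_le_one₀ (norm_nonneg _) (norm_p_lt (p := p i)).le
      · rw [h0, sub_zero, norm_pow]; exact hJ
    · exact ⟨_, (hts i).1, by rw [sub_self, norm_zero]; exact hη₁, h0⟩
  choose ξ z1 z2 z3 using hz
  obtain ⟨n, hn⟩ := Cu.fill hinj h hR2 ξ z1 (η := min η₁ ‖ξ i₀‖)
    (lt_min hη₁ (norm_pos_iff.2 (z3 i₀)))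
  have hQQ : n • (2 • R) = n • R + n • R := by
    rw [two_nsmul, smul_add]
  have hTT : Te (e i₀) (n • (2 • R)) ≠ 0 := by
    intro h0
    have h2 := hn i₀
    rw [h0, map_zero, zero_sub, norm_neg] at h2
    exact absurd (h2.trans_le (min_le_right _ _)) (lt_irrefl _)
  have htz : ∀ m : ℤ, m ≠ 0 → m • R ≠ 0 := by
    intro m hm h0
    obtain ⟨k, rfl | rfl⟩ := m.eq_nat_or_neg
    · rw [natCast_zsmul] at h0
      exact htf k (by exact_mod_cast hm) h0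
    · rw [neg_smul, natCast_zsmul, neg_eq_zero] at h0
      refine htf k ?_ h0
      rintro rfl
      exact hm (by simp)
  have hne1 : n • R + n • R ≠ R := by
    intro h0
    refine htz (2 * n - 1) (by omega) ?_
    have e1 : (2 * n - 1) • R = (n • R + n • R) - R := by
      rw [sub_smul, one_smul, two_mul, add_smul]
    rw [e1, h0, sub_self]
  have hne2 : n • R + n • R ≠ -R := by
    intro h0
    refine htz (2 * n + 1) (by omega) ?_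
    have e1 : (2 * n + 1) • R = (n • R + n • R) + R := by
      rw [add_smul, one_smul, two_mul, add_smul]
    rw [e1, h0, neg_add_cancel]
  rw [hQQ] at hTT
  rw [hQQ] at hn
  clear hQQ
  revert hn hTT hne1 hne2
  generalize n • R = Q
  intro hn hTT hne1 hne2
  rcases Q with _ | ⟨X₀, W₀, hQ₀⟩
  · exfalso
    have e0 : (WeierstrassCurve.Affine.Point.zero : Pt (tA θ) (tB θ) (tC θ)) = 0 := rfl
    rw [e0, add_zero, Te_zero] at hTT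
    exact hTT rfl
  have hXW₀ := (cv_ns.1 hQ₀).1
  have hW₀ : W₀ ≠ 0 := ((h i₀).ts hXW₀).1
  have h2W : 2 * W₀ ≠ 0 := mul_ne_zero two_ne_zero hW₀
  obtain ⟨ℓ, hℓ⟩ : ∃ ℓ, ℓ * (2 * W₀) = 3 * X₀ ^ 2 + 2 * tA θ * X₀ + tB θ :=
    ⟨(3 * X₀ ^ 2 + 2 * tA θ * X₀ + tB θ) / (2 * W₀), div_mul_cancel₀ _ h2W⟩
  obtain ⟨hQ, eQ⟩ := dbl_mk hQ₀ h2W hℓ
  rw [eQ] at hn hTT hne1 hne2
  obtain ⟨X, hXd⟩ : ∃ X, X = ℓ ^ 2 - tA θ - X₀ - X₀ := ⟨_, rfl⟩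
  obtain ⟨W, hWd⟩ : ∃ W, W = -(ℓ * (X - X₀) + W₀) := ⟨_, rfl⟩
  revert hQ
  rw [← hXd, ← hWd]
  intro hQ hne2 hne1 hTT hn eQ
  have hXW := (cv_ns.1 hQ).1
  have hW : W ≠ 0 := ((h i₀).ts hXW).1
  have hXne : X ≠ tX θ := by
    rintro rfl
    rcases eq_or_neg hQ hns with h0 | h0
    · exact hne1 h0
    · exact hne2 h0
  simp only [Te_some] at hn
  have hA : ∀ i, _ := fun i => hcc i X W hXW (by
    have e1 : σ i ((X - e i) / W) - (x i - σ i (e i)) / y i =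
      (σ i ((X - e i) / W) - ξ i) + (ξ i - (x i - σ i (e i)) / y i) := by ring
    rw [e1]
    exact (Padic.nonarchimedean _ _).trans_lt (max_lt
      ((hn i).trans_le ((min_le_left _ _).trans (hη₁p i))) ((z2 i).trans_le (hη₁p i))))
  refine ⟨tf θ.1 (θ.2 0) (θ.2 1) (θ.2 2) X W, Yf θ.1 (θ.2 0) (θ.2 1) (θ.2 2) X W,
    Yf_eqn hw hXW (hA i₀).1, sheet_pos hw hpos h4 hXW₀ hW₀ hℓ hXd hXW hW (hA i₀).1 hXne,
    fun i => ⟨?_, ?_⟩⟩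
  · obtain ⟨-, a2, a3⟩ := hA i
    rw [← b5 i] at a2
    have := norm_sub_le_norm_sub_add_norm_sub (σ i (tf θ.1 (θ.2 0) (θ.2 1) (θ.2 2) X W)) (t' i) (t i)
    have := b1 i
    linarith
  · obtain ⟨-, a2, a3⟩ := hA i
    rw [← b6 i] at a3
    have := norm_sub_le_norm_sub_add_norm_sub (σ i (Yf θ.1 (θ.2 0) (θ.2 1) (θ.2 2) X W)) (Y' i) (Y i)
    have := b2 i
    linarith

end Pool.Agent.Y720.MZ
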