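import Pool.Agent.Y720.WF.R2

/-!
# Moves along the fibres on one sheet (helper720)
-/

set_option autoImplicit false
set_option linter.unusedVariables false
set_option linter.unusedSectionVars false

open WeierstrassCurve Filter Topology

namespace Pool.Agent.Y720.MZ

section lead

variable {q : ℕ} [hq : Fact q.Prime] {c h : Fin 5 → Fin 5 → ℤ} {ν b : ℤ}

lemma G4.lead (H : G4 q c h ν b) (X : ℤ_[q]) : cf c X 4 ≠ 0 := by
  intro h0
  have h1 := congrArg PadicInt.toZMod h0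
  rw [map_cf, map_zero] at h1
  have r : ∀ i : Fin 5, (c i 4 : ZMod q) = (g4 ν b i 4 : ZMod q) := fun i => H.red i 4
  unfold cf at h1
  simp only [Fin.sum_univ_five, r] at h1
  simp [g4] at h1
  exact H.hν0 h1

lemma G4.leadK {K : Type*} [Field K] {σ : K →+* ℚ_[q]} (H : G4 q c h ν b) {x y w : K}
    (hxy : w ^ 2 = F4 c x y) : tq c x y 3 ≠ 0 := by
  have hm : (σ w) ^ 2 = F4 c (σ x) (σ y) := by rw [← map_pow, hxy, map_F4]
  obtain ⟨X0, Y0, W0, e1, e2, e3, e4, e5⟩ := H.int hm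
  have ht : tq c x y 3 = cf c x 4 := rfl
  rw [ht]
  intro h0
  have h1 := congrArg σ h0
  rw [map_cf, map_zero, e1] at h1
  apply H.lead X0
  have h2 : ((cf c X0 4 : ℤ_[q]) : ℚ_[q]) = cf c (X0 : ℚ_[q]) 4 :=
    map_cf c (PadicInt.Coe.ringHom (p := q)) X0 4
  rw [h1] at h2
  exact PadicInt.ext (by rw [h2]; rfl)

end lead

variable {K : Type*} [Field K] [CharZero K] {ι : Type*} [Fintype ι] {p : ι → ℕ}
  [hp : ∀ i, Fact (p i).Prime] {σ : ∀ i, K →+* ℚ_[p i]} {τ : K →+* ℝ}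

/-- the local point is a limit of points over `K` -/
def Clp (σ : ∀ i, K →+* ℚ_[p i]) (τ : K →+* ℝ) (c : Fin 5 → Fin 5 → ℤ) (X Y W : ∀ i, ℚ_[p i]) : Prop :=
  ∀ η : ℝ, 0 < η → ∃ x y w : K, w ^ 2 = F4 c x y ∧ 0 < τ w ∧
    ∀ i, ‖σ i x - X i‖ < η ∧ ‖σ i y - Y i‖ < η ∧ ‖σ i w - W i‖ < η

lemma Clp.swap {c : Fin 5 → Fin 5 → ℤ} {X Y W : ∀ i, ℚ_[p i]} (h : Clp σ τ c X Y W) :
    Clp σ τ (fun i j => c j i) Y X W := by
  intro η hη
  obtain ⟨x, y, w, h1, h3, h2⟩ := h η hη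
  exact ⟨y, x, w, by rw [F4_swap]; exact h1, h3, fun i => ⟨(h2 i).2.1, (h2 i).1, (h2 i).2.2⟩⟩

variable {c : Fin 5 → Fin 5 → ℤ} {h : ι → Fin 5 → Fin 5 → ℤ} {ν b : ι → ℤ}

/-- **Moves in the direction of the second coordinate.** -/
theorem movep_y [Nonempty ι] (hinj : Function.Injective p)
    (hF : ∀ x y : ℝ, 0 < F4 c x y) (H : ∀ i, G4 (p i) c (h i) (ν i) (b i))
    {X Y W : ∀ i, ℚ_[p i]} (hC : Clp σ τ c X Y W) (hW : ∀ i, ‖W i‖ = 1) {Y' W' : ∀ i, ℚ_[p i]}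
    (h' : ∀ i, W' i ^ 2 = F4 c (X i) (Y' i)) (hW' : ∀ i, W' i ≠ 0) : Clp σ τ c X Y' W' := by
  intro η hη
  -- the size of the neighbourhood
  have hδ : ∀ i, ∃ δ : ℝ, 0 < δ ∧ ∀ x : ℚ_[p i], ‖x - X i‖ < δ →
      ∃ Z : ℚ_[p i], ‖Z - W' i‖ < min (η / 2) ‖W' i‖ ∧ Z ^ 2 = F4 c x (Y' i) := by
    intro i
    obtain ⟨δ, hδ, hs⟩ := exists_sqrt (hW' i) (ε := min (η / 2) ‖W' i‖)
      (lt_min (half_pos hη) (norm_pos_iff.2 (hW' i)))
    have hc : Continuous fun x : ℚ_[p i] => F4 c x (Y' i) := by unfold F4; fun_prop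
    have h1 : ∀ᶠ x in 𝓝 (X i), ‖F4 c x (Y' i) - W' i ^ 2‖ < δ := by
      have h2 : Tendsto (fun x => ‖F4 c x (Y' i) - W' i ^ 2‖) (𝓝 (X i)) (𝓝 0) := by
        have := ((hc.tendsto (X i)).sub_const (W' i ^ 2)).norm
        rwa [← h' i, sub_self, norm_zero] at this
      exact h2.eventually_lt_const hδ
    obtain ⟨δ', hδ', hb⟩ := Metric.eventually_nhds_iff_ball.1 h1
    exact ⟨δ', hδ', fun x hx => hs _ (hb x (mem_ball_iff_norm.2 hx))⟩
  choose δ hδ0 hδs using hδ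
  obtain ⟨δ₀, hδ₀, hδ₀i⟩ := fin_min hδ0
  obtain ⟨x, y, w, hxy, hwp, hn⟩ := hC (min δ₀ (min η 1)) (lt_min hδ₀ (lt_min hη one_pos))
  have hw1 : ∀ i, ‖σ i w‖ = 1 := by
    intro i
    have h1 := (hn i).2.2.trans_le ((min_le_right _ _).trans (min_le_right _ _))
    rw [← hW i]
    have e : σ i w = W i + (σ i w - W i) := by ring
    rw [e]
    exact na_eq (v := av (RingHom.id ℚ_[p i])) (av_na' _) (by
      rw [av_apply, av_apply, RingHom.id_apply, RingHom.id_apply, hW i]; exact h1)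
  have hw0 : w ≠ 0 := by
    rintro rfl
    obtain ⟨i⟩ := ‹Nonempty ι›
    have := hw1 i
    rw [map_zero, norm_zero] at this
    exact zero_ne_one this
  set θ : K × (Fin 4 → K) := (w, tq c x y) with hθ
  set e : K := -(tq c x y 1) / 3 with he
  have key : ∀ i, Cu (av (σ i)) ‖(p i : ℚ_[p i])‖ (tA θ) (tB θ) (tC θ) e ∧
      ‖σ i (tX θ - e)‖ = 1 := by
    intro i
    have hm : (σ i w) ^ 2 = F4 c (σ i x) (σ i y) := by rw [← map_pow, hxy, map_F4]
    obtain ⟨X0, Y0, W0, e1, e2, e3, e4, e5⟩ := (H i).int hm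
    have hW0 : ‖W0‖ = 1 := by rw [← coe_norm, ← e3]; exact hw1 i
    obtain ⟨k1, k2⟩ := (H i).cu e4 hW0 e5
    have q : ∀ j, ((tq c X0 Y0 j : ℤ_[p i]) : ℚ_[p i]) = σ i (tq c x y j) := by
      intro j
      rw [tq_coe, map_tq, e1, e2]
    have q3 : -((tq c X0 Y0 1 : ℤ_[p i]) : ℚ_[p i]) / 3 = σ i e := by
      rw [he, q]; simp [map_ofNat]
    have kb : ((rb W0 (tq c X0 Y0 0) (tq c X0 Y0 2) (tq c X0 Y0 3) : ℤ_[p i]) : ℚ_[p i]) =
        σ i (tB θ) := by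
      have : tB θ = rb w (tq c x y 0) (tq c x y 2) (tq c x y 3) := rfl
      rw [this]
      unfold rb
      have k4 : ((4 : ℤ_[p i]) : ℚ_[p i]) = 4 := map_ofNat (PadicInt.Coe.ringHom (p := p i)) 4
      push_cast
      simp only [k4, q, map_sub, map_mul, map_pow, map_ofNat, ← e3]
    have kc : ((rc W0 (tq c X0 Y0 0) (tq c X0 Y0 1) (tq c X0 Y0 2) (tq c X0 Y0 3) : ℤ_[p i]) :
        ℚ_[p i]) = σ i (tC θ) := by
      have : tC θ = rc w (tq c x y 0) (tq c x y 1) (tq c x y 2) (tq c x y 3) := rfl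
      rw [this]
      unfold rc
      have k4 : ((4 : ℤ_[p i]) : ℚ_[p i]) = 4 := map_ofNat (PadicInt.Coe.ringHom (p := p i)) 4
      push_cast
      simp only [k4, q, map_sub, map_add, map_mul, map_pow, map_ofNat, ← e3]
    rw [q3, q 1, kb, kc] at k1
    refine ⟨Cu.of_map (σ i) k1, ?_⟩
    rw [q3, q 1, q 0, ← e3] at k2
    have : tX θ = xs w (tq c x y 0) (tq c x y 1) := rfl
    rw [this, map_sub]
    have e6 : σ i (xs w (tq c x y 0) (tq c x y 1)) =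
        xs (σ i w) (σ i (tq c x y 0)) (σ i (tq c x y 1)) := by simp [xs, map_ofNat]
    rw [e6]
    exact k2
  have hZ : ∀ i, ∃ Z : ℚ_[p i], ‖Z - W' i‖ < min (η / 2) ‖W' i‖ ∧ Z ^ 2 = F4 c (σ i x) (Y' i) :=
    fun i => hδs i _ ((hn i).1.trans_le ((min_le_left _ _).trans (hδ₀i i)))
  choose Z hZ1 hZ2 using hZ
  have hZ0 : ∀ i, Z i ≠ 0 := by
    intro i h0
    have := (hZ1 i).trans_le (min_le_right _ _)
    rw [h0, zero_sub, norm_neg] at this
    exact lt_irrefl _ this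
  obtain ⟨i₁⟩ := ‹Nonempty ι›
  have : Nonempty ι := ⟨i₁⟩
  obtain ⟨s, z, g1, gp, g2⟩ := fib_pos (τ := τ) hinj (θ := θ) hw0 (e := fun _ => e)
    (fun i => (key i).1)
    (fun i => (key i).2) (fun r => by
      have e1 : (fun j => τ (θ.2 j)) = tq c (τ x) (τ y) := by
        funext j
        exact map_tq c τ x y j
      rw [e1, qv_tq c (show (τ θ.1) ^ 2 = F4 c (τ x) (τ y) by
        rw [← map_pow, ← map_F4]; exact congrArg _ hxy)]
      exact hF _ _) ((H i₁).leadK (σ := σ i₁) hxy) (t := fun i => Y' i - σ i y) (Y := Z) (fun i => by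
      have e1 : (fun j => σ i (θ.2 j)) = tq c (σ i x) (σ i y) := by
        funext j
        exact map_tq c (σ i) x y j
      rw [e1, qv_tq c (show (σ i θ.1) ^ 2 = F4 c (σ i x) (σ i y) by
        rw [← map_pow, ← map_F4]; exact congrArg _ hxy), hZ2]
      congr 1
      ring) hZ0 (half_pos hη)
  refine ⟨x, y + s, z, ?_, (mul_pos_iff_of_pos_left hwp).1 gp, fun i => ⟨?_, ?_, ?_⟩⟩
  · rw [g1]
    exact qv_tq c hxy s
  · exact (hn i).1.trans_le ((min_le_right _ _).trans (min_le_left _ _))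
  · have := (g2 i).1
    have e1 : σ i (y + s) - Y' i = σ i s - (Y' i - σ i y) := by rw [map_add]; ring
    rw [e1]
    linarith
  · have k1 := (g2 i).2
    have k2 := (hZ1 i).trans_le (min_le_left _ _)
    have := norm_sub_le_norm_sub_add_norm_sub (σ i z) (Z i) (W' i)
    linarith

theorem movep_x [Nonempty ι] (hinj : Function.Injective p)
    (hF : ∀ x y : ℝ, 0 < F4 c x y) (H : ∀ i, G4 (p i) c (h i) (ν i) (b i))
    {X Y W : ∀ i, ℚ_[p i]} (hC : Clp σ τ c X Y W) (hW : ∀ i, ‖W i‖ = 1) {X' W' : ∀ i, ℚ_[p i]}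
    (h' : ∀ i, W' i ^ 2 = F4 c (X' i) (Y i)) (hW' : ∀ i, W' i ≠ 0) : Clp σ τ c X' Y W' := by
  have := movep_y hinj (fun x y => by rw [F4_swap]; exact hF y x) (fun i => (H i).swap) hC.swap hW (Y' := X') (W' := W')
    (fun i => by rw [F4_swap]; exact h' i) hW'
  exact this.swap

/-- all the points over a family of first coordinates are limits -/
def FXp (σ : ∀ i, K →+* ℚ_[p i]) (τ : K →+* ℝ) (c : Fin 5 → Fin 5 → ℤ) (X : ∀ i, ℤ_[p i]) : Prop :=
  ∀ Y W : ∀ i, ℚ_[p i], (∀ i, W i ^ 2 = F4 c (X i : ℚ_[p i]) (Y i)) → (∀ i, W i ≠ 0) →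
    Clp σ τ c (fun i => (X i : ℚ_[p i])) Y W

/-- all the points over a family of second coordinates are limits -/
def FYp (σ : ∀ i, K →+* ℚ_[p i]) (τ : K →+* ℝ) (c : Fin 5 → Fin 5 → ℤ) (Y : ∀ i, ℤ_[p i]) : Prop :=
  ∀ X W : ∀ i, ℚ_[p i], (∀ i, W i ^ 2 = F4 c (X i) (Y i : ℚ_[p i])) → (∀ i, W i ≠ 0) →
    Clp σ τ c X (fun i => (Y i : ℚ_[p i])) W

lemma FXp.toFY [Nonempty ι] (hinj : Function.Injective p)
    (hF : ∀ x y : ℝ, 0 < F4 c x y) (H : ∀ i, G4 (p i) c (h i) (ν i) (b i))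
    {X Y : ∀ i, ℤ_[p i]} (hX : FXp σ τ c X) (hJ : Jo c X Y) : FYp σ τ c Y := by
  choose W hW1 hW2 using hJ
  intro X' W' h1 h2
  refine movep_x hinj hF H (W := fun i => (W i : ℚ_[p i])) (hX _ _ (fun i => ?_) fun i => ?_)
    (fun i => ?_) h1 h2
  · rw [← F4_coe, ← hW1]; push_cast; rfl
  · exact ne_of_one (hW2 i)
  · rw [coe_norm]; exact hW2 i

lemma FYp.toFX [Nonempty ι] (hinj : Function.Injective p)
    (hF : ∀ x y : ℝ, 0 < F4 c x y) (H : ∀ i, G4 (p i) c (h i) (ν i) (b i))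
    {X Y : ∀ i, ℤ_[p i]} (hY : FYp σ τ c Y) (hJ : Jo c X Y) : FXp σ τ c X := by
  choose W hW1 hW2 using hJ
  intro Y' W' h1 h2
  refine movep_y hinj hF H (W := fun i => (W i : ℚ_[p i])) (hY _ _ (fun i => ?_) fun i => ?_)
    (fun i => ?_) h1 h2
  · rw [← F4_coe, ← hW1]; push_cast; rfl
  · exact ne_of_one (hW2 i)
  · rw [coe_norm]; exact hW2 i

/-- one step -/
lemma FXp.step [Nonempty ι] (hinj : Function.Injective p)
    (hF : ∀ x y : ℝ, 0 < F4 c x y) (H : ∀ i, G4 (p i) c (h i) (ν i) (b i))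
    {X X' : ∀ i, ℤ_[p i]} (hX : FXp σ τ c X)
    (h' : ∀ i, PadicInt.toZMod (X' i) = PadicInt.toZMod (X i) ∨
      PadicInt.toZMod (X' i) = PadicInt.toZMod (X i) + ((H i).u 2 - (H i).u 1)) : FXp σ τ c X' := by
  have h2 : ∀ i, (2 : ZMod (p i)) ≠ 0 := fun i => by
    have := (H i).nz (n := 2) (by norm_num) (by norm_num)
    exact_mod_cast this
  choose Y hY using fun i => lift_red (PadicInt.toZMod (X i) - (H i).u 1)
  have j1 : Jo c X Y := fun i => (H i).join one_ne_zero (by rw [hY]; ring)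
  have j2 : Jo c X' Y := by
    intro i
    rcases h' i with e | e
    · exact (H i).join one_ne_zero (by rw [e, hY]; ring)
    · exact (H i).join (h2 i) (by rw [e, hY]; ring)
  exact FYp.toFX hinj hF H (FXp.toFY hinj hF H hX j1) j2

/-- many steps -/
lemma FXp.steps [Nonempty ι] (hinj : Function.Injective p)
    (hF : ∀ x y : ℝ, 0 < F4 c x y) (H : ∀ i, G4 (p i) c (h i) (ν i) (b i))
    {X : ∀ i, ℤ_[p i]} (hX : FXp σ τ c X) (n : ℕ) : ∀ X' : ∀ i, ℤ_[p i],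
      (∀ i, ∃ m : ℕ, m ≤ n ∧ PadicInt.toZMod (X' i) = PadicInt.toZMod (X i) +
        m * ((H i).u 2 - (H i).u 1)) → FXp σ τ c X' := by
  induction n with
  | zero =>
    intro X' h'
    refine FXp.step hinj hF H hX fun i => Or.inl ?_
    obtain ⟨m, hm, e⟩ := h' i
    rw [e, Nat.le_zero.1 hm, Nat.cast_zero, zero_mul, add_zero]
  | succ n ih =>
    intro X' h'
    choose m hm e using h'
    choose X'' hX'' using fun i => lift_red (PadicInt.toZMod (X i) +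
      ((min (m i) n : ℕ) : ZMod (p i)) * ((H i).u 2 - (H i).u 1))
    refine FXp.step hinj hF H (ih X'' fun i => ⟨min (m i) n, min_le_right _ _, hX'' i⟩) fun i => ?_
    rcases Nat.lt_or_ge n (m i) with hlt | hge
    · right
      have h1 : m i = n + 1 := le_antisymm (hm i) hlt
      rw [e, hX'', min_eq_right hlt.le, h1]
      push_cast
      ring
    · left
      rw [e, hX'', min_eq_left hge]

/-- **All the first coordinates are reached.** -/
lemma FXp.all [Nonempty ι] (hinj : Function.Injective p)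
    (hF : ∀ x y : ℝ, 0 < F4 c x y) (H : ∀ i, G4 (p i) c (h i) (ν i) (b i))
    {X : ∀ i, ℤ_[p i]} (hX : FXp σ τ c X) (X' : ∀ i, ℤ_[p i]) : FXp σ τ c X' := by
  have hΔ : ∀ i, (H i).u 2 - (H i).u 1 ≠ 0 := by
    intro i h0
    have d1 := (H i).den 1
    have d2 := (H i).den 2
    have e1 : (H i).u 1 * (1 ^ 2 - (ν i : ZMod (p i))) = ν i * b i := div_mul_cancel₀ _ d1
    have e2 : (H i).u 2 * (2 ^ 2 - (ν i : ZMod (p i))) = ν i * b i := div_mul_cancel₀ _ d2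
    have h1 : (H i).u 2 = (H i).u 1 := sub_eq_zero.1 h0
    rw [h1] at e2
    have h3 : (H i).u 1 * 3 = 0 := by linear_combination e2 - e1
    have hu0 : (H i).u 1 ≠ 0 := div_ne_zero (mul_ne_zero (H i).hν0 (H i).hb) d1
    have n3 := (H i).nz (n := 3) (by norm_num) (by norm_num)
    rcases mul_eq_zero.1 h3 with h3 | h3
    · exact hu0 h3
    · exact n3 (by exact_mod_cast h3)
  obtain ⟨n, hn⟩ : ∃ n : ℕ, ∀ i, ((PadicInt.toZMod (X' i) - PadicInt.toZMod (X i)) /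
      ((H i).u 2 - (H i).u 1)).val ≤ n := by
    refine ⟨Finset.univ.sup fun i => ((PadicInt.toZMod (X' i) - PadicInt.toZMod (X i)) /
      ((H i).u 2 - (H i).u 1)).val, fun i => ?_⟩
    exact Finset.le_sup (f := fun i => ((PadicInt.toZMod (X' i) - PadicInt.toZMod (X i)) /
      ((H i).u 2 - (H i).u 1)).val) (Finset.mem_univ i)
  refine FXp.steps hinj hF H hX n X' fun i => ⟨_, hn i, ?_⟩
  rw [ZMod.natCast_zmod_val, div_mul_cancel₀ _ (hΔ i)]
  ring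

/-- **The points over `K` are dense in the product of the sets of local points.** -/
theorem densep_all [Nonempty ι] (hinj : Function.Injective p)
    (hF : ∀ x y : ℝ, 0 < F4 c x y)
    (H : ∀ i, G4 (p i) c (h i) (ν i) (b i)) {x₀ y₀ w₀ : K} (h0 : w₀ ^ 2 = F4 c x₀ y₀)
    (h0p : 0 < τ w₀)
    (hw : ∀ i, ‖σ i w₀‖ = 1) {X Y W : ∀ i, ℚ_[p i]} (hX : ∀ i, W i ^ 2 = F4 c (X i) (Y i)) :
    Clp σ τ c X Y W := by
  have hm : ∀ i, (σ i w₀) ^ 2 = F4 c (σ i x₀) (σ i y₀) := fun i => by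
    rw [← map_pow, h0, map_F4]
  choose X0 Y0 W0 e1 e2 e3 e4 e5 using fun i => (H i).int (hm i)
  have hC : Clp σ τ c (fun i => (X0 i : ℚ_[p i])) (fun i => (Y0 i : ℚ_[p i])) (fun i => σ i w₀) := by
    intro η hη
    refine ⟨x₀, y₀, w₀, h0, h0p, fun i => ?_⟩
    dsimp only
    rw [e1, e2, sub_self, sub_self, sub_self, norm_zero]
    exact ⟨hη, hη, hη⟩
  have hF' : FXp σ τ c X0 := fun Y' W' h1 h2 => movep_y hinj hF H hC hw h1 h2
  intro η hη
  choose Y' W' k1 k2 k3 k4 using fun i => (H i).near (hX i) (half_pos hη)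
  choose X1 Y1 W1 f1 f2 f3 f4 f5 using fun i => (H i).int (hX i)
  have hFX := FXp.all hinj hF H hF' X1
  obtain ⟨x, y, w, g1, gp, g2⟩ := hFX Y' W' (fun i => by rw [k2, f1]) k1 (η / 2) (half_pos hη)
  refine ⟨x, y, w, g1, gp, fun i => ⟨?_, ?_, ?_⟩⟩
  · rw [f1]
    have := (g2 i).1
    linarith
  · have h1 := (g2 i).2.1
    have h2 := k3 i
    have := norm_sub_le_norm_sub_add_norm_sub (σ i y) (Y' i) (Y i)
    linarith
  · have h1 := (g2 i).2.2
    have h2 := k4 i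
    have := norm_sub_le_norm_sub_add_norm_sub (σ i w) (W' i) (W i)
    linarith

end Pool.Agent.Y720.MZ
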