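import Pool.Agent.Y720.WE.N4
import Pool.Agent.Y720.WF.R3

/-!
# Special reduction in several variables: density on one sheet (helper720)
-/

set_option autoImplicit false
set_option linter.unusedVariables false
set_option linter.unusedSectionVars false

open Function Filter Topology

namespace Pool.Agent.Y720.MZ

variable {ι : Type*} [Fintype ι] [DecidableEq ι]

variable {κ : Type*} [Fintype κ] {p : κ → ℕ} [hp : ∀ i, Fact (p i).Prime]
  {c : (ι → Fin 5) → ℤ} {ν β a₀ : κ → ℤ} {a : κ → ι → ℤ}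

/-- **Density in the slices.** -/
theorem slicep_dense [Nonempty κ] (hinj : Injective p)
    (hF : ∀ z : ι → ℝ, 0 < fm c z fun _ => 1)
    (H : ∀ i, SP (p i) c (ν i) (β i) (a₀ i) (a i)) {k j : ι} (hkj : k ≠ j) {x : ι → ℚ} {w : ℚ}
    (hw2 : w ^ 2 = fm c x fun _ => 1) (hwp : 0 < w) (hw : ∀ i, ‖(w : ℚ_[p i])‖ = 1) {s t W : ∀ i, ℚ_[p i]}
    (hs : ∀ i, W i ^ 2 = fm c (up k j (fun l => (x l : ℚ_[p i])) (s i) (t i)) fun _ => 1)
    {ε : ℝ} (hε : 0 < ε) :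
    ∃ s₁ t₁ w₁ : ℚ, w₁ ^ 2 = fm c (up k j x s₁ t₁) (fun _ => 1) ∧ 0 < w₁ ∧
      ∀ i, ‖(s₁ : ℚ_[p i]) - s i‖ < ε ∧ ‖(t₁ : ℚ_[p i]) - t i‖ < ε ∧
        ‖(w₁ : ℚ_[p i]) - W i‖ < ε := by
  have hpp : ∀ i, Prime (p i : ℤ) := fun i => Nat.prime_iff_prime_int.1 (hp i).out
  set m : ι → ℤ := fun l => (x l).num with hm
  set N : ι → ℤ := fun l => ((x l).den : ℤ) with hN
  have hN1 : ∀ i l, ¬ (p i : ℤ) ∣ N l := fun i l =>
    den_ndvd ((H i).int (cast_sq_fm (p := p i) hw2) l)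
  have hY : ∀ i, ((∏ l ∈ rs k j, N l : ℤ) : ZMod (p i)) ≠ 0 := by
    intro i h0
    have h3 := (ZMod.intCast_zmod_eq_zero_iff_dvd _ (p i)).1 h0
    obtain ⟨l, -, hl⟩ := (Prime.dvd_finsetProd_iff (hpp i) _).1 h3
    exact hN1 i l hl
  -- the coordinate change
  choose rb hrb using fun i => lin_solve (p := p i) (u := a i j) (v := a i k) ((H i).na j)
  obtain ⟨b', hb'⟩ := crtκ hinj rb
  choose rg hrg using fun i => lin_solve (p := p i) (u := a i k * ∏ l ∈ rs k j, N l)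
    (v := lk (a₀ i) (a i) k j m N) (by push_cast; exact mul_ne_zero ((H i).na k) (by
      have := hY i; push_cast at this; exact this))
  obtain ⟨γ, hγ⟩ := crtκ hinj rg
  have c1 : ∀ i, (p i : ℤ) ∣ a i j * b' + a i k := by
    intro i
    have e : a i j * b' + a i k = a i j * (b' - rb i) + (a i j * rb i + a i k) := by ring
    rw [e]
    exact dvd_add ((hb' i).mul_left _) (hrb i)
  have c2 : ∀ i, (p i : ℤ) ∣ a i k * (∏ l ∈ rs k j, N l) * γ + lk (a₀ i) (a i) k j m N := by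
    intro i
    have e : a i k * (∏ l ∈ rs k j, N l) * γ + lk (a₀ i) (a i) k j m N =
        a i k * (∏ l ∈ rs k j, N l) * (γ - rg i) +
        (a i k * (∏ l ∈ rs k j, N l) * rg i + lk (a₀ i) (a i) k j m N) := by ring
    rw [e]
    exact dvd_add ((hγ i).mul_left _) (hrg i)
  choose ν' b'' h hG using fun i => (H i).slice hkj (hN1 i) (c1 i) (c2 i)
  have hbp : ∀ i, ¬ (p i : ℤ) ∣ b' := by
    intro i h0
    apply (H i).ha k
    exact (Int.dvd_add_right (h0.mul_left _)).1 (c1 i)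
  obtain ⟨i₀⟩ := ‹Nonempty κ›
  have : Nonempty κ := ⟨i₀⟩
  have hb0 : b' ≠ 0 := by
    rintro rfl
    exact hbp i₀ (dvd_zero _)
  set D : ℤ := ∏ l, (up k j N 1 1 l) ^ 2 with hD
  have hDp : ∀ i, ¬ (p i : ℤ) ∣ D := by
    intro i h0
    obtain ⟨l, -, hl⟩ := (Prime.dvd_finsetProd_iff (hpp i) _).1 h0
    have h1 := (hpp i).dvd_of_dvd_pow hl
    by_cases hj : l = j
    · subst hj
      rw [up_j] at h1
      exact (hpp i).not_dvd_one h1
    · by_cases hk : l = k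
      · subst hk
        rw [up_k hkj] at h1
        exact (hpp i).not_dvd_one h1
      · rw [up_ne hj hk] at h1
        exact hN1 i l h1
  have hD0 : D ≠ 0 := by
    intro h0
    exact hDp i₀ (by rw [h0]; exact dvd_zero _)
  set C : Fin 5 → Fin 5 → ℤ := tr γ b' (sl c k j m N) with hC
  -- the main identity
  have main : ∀ (R : Type) [Field R] [CharZero R] (x' : ι → R)
      (hx' : ∀ l, (N l : R) * x' l = (m l : R)) (s t : R),
      F4 C (s - γ) (t / b') = (D : R) ^ 2 * fm c (up k j x' s t) fun _ => 1 := by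
    intro R _ _ x' hx' s t
    have hb0' : (b' : R) ≠ 0 := by exact_mod_cast hb0
    rw [hC, F4_tr, sub_add_cancel, mul_div_cancel₀ _ hb0', F4_sl c hkj]
    have h1 := fm_scale c (up k j x' s t) (up k j (fun l => (N l : R)) 1 1)
    have h2 : (fun i => up k j (fun l => (N l : R)) 1 1 i * up k j x' s t i) =
        up k j (fun l => (m l : R)) s t := by
      funext l
      by_cases hj : l = j
      · subst hj
        rw [up_j, up_j, up_j, one_mul]
      · by_cases hk : l = k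
        · subst hk
          rw [up_k hkj, up_k hkj, up_k hkj, one_mul]
        · rw [up_ne hj hk, up_ne hj hk, up_ne hj hk, hx']
    rw [h2] at h1
    rw [h1, hD]
    push_cast
    congr 3
    funext l
    have := congrFun (map_up (fun z : ℤ => (z : R)) k j N 1 1) l
    simp only [Int.cast_one] at this
    rw [← this]
  have hNx : ∀ l, ((N l : ℤ) : ℚ) * x l = (m l : ℚ) := fun l => by
    rw [hN, hm]
    dsimp only
    rw [mul_comm]
    exact_mod_cast Rat.mul_den_eq_num (x l)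
  have hNp : ∀ i l, ((N l : ℤ) : ℚ_[p i]) * (x l : ℚ_[p i]) = (m l : ℚ_[p i]) := fun i l => by
    exact_mod_cast congrArg (fun q : ℚ => (q : ℚ_[p i])) (hNx l)
  have hrat := main ℚ x hNx
  have hloc := fun i => main ℚ_[p i] (fun l => (x l : ℚ_[p i])) (hNp i)
  have hDn : ∀ i, ‖(D : ℚ_[p i])‖ = 1 := fun i => unit_norm (hDp i)
  have hbn : ∀ i, ‖(b' : ℚ_[p i])‖ = 1 := fun i => unit_norm (hbp i)
  have hNr : ∀ l, ((N l : ℤ) : ℝ) * (x l : ℝ) = (m l : ℝ) := fun l => by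
    exact_mod_cast congrArg (fun q : ℚ => (q : ℝ)) (hNx l)
  have hreal := main ℝ (fun l => (x l : ℝ)) hNr
  have hDpos : 0 < D := lt_of_le_of_ne (Finset.prod_nonneg fun l _ => sq_nonneg _) hD0.symm
  have hDr : (0 : ℝ) < D := by exact_mod_cast hDpos
  have hDq : (0 : ℚ) < D := by exact_mod_cast hDpos
  have hCpos : ∀ x' y' : ℝ, 0 < F4 C x' y' := by
    intro x' y'
    have h1 := hreal (x' + γ) (b' * y')
    have hb0r : (b' : ℝ) ≠ 0 := by exact_mod_cast hb0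
    rw [add_sub_cancel_right, mul_div_cancel_left₀ _ hb0r] at h1
    rw [h1]
    exact mul_pos (by positivity) (hF _)
  have hclo := densep_all (K := ℚ) (ι := κ) (p := p) (c := C)
    (σ := fun i => Rat.castHom ℚ_[p i]) (τ := Rat.castHom ℝ) hinj hCpos hG
    (x₀ := x k - γ) (y₀ := x j / b') (w₀ := D * w)
    (by rw [hrat, up_self, mul_pow, hw2])
    (by
      rw [eq_ratCast]
      exact_mod_cast mul_pos hDq hwp)
    (fun i => by
      simp only [map_mul, eq_ratCast, Rat.cast_intCast]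
      rw [norm_mul, hDn, hw, one_mul])
    (X := fun i => s i - γ) (Y := fun i => t i / b') (W := fun i => D * W i)
    (fun i => by rw [hloc i, mul_pow, hs i])
  obtain ⟨x', y', w', g1, gp, g2⟩ := hclo ε hε
  have hb0q : (b' : ℚ) ≠ 0 := by exact_mod_cast hb0
  have hD0q : (D : ℚ) ≠ 0 := by exact_mod_cast hD0
  rw [eq_ratCast] at gp
  refine ⟨x' + γ, b' * y', w' / D, ?_, div_pos (by exact_mod_cast gp) hDq, fun i => ?_⟩
  · have h1 := hrat (x' + γ) (b' * y')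
    rw [add_sub_cancel_right, mul_div_cancel_left₀ _ hb0q, ← g1] at h1
    rw [div_pow, h1]
    field_simp
  · obtain ⟨d1, d2, d3⟩ := g2 i
    have hb0p : (b' : ℚ_[p i]) ≠ 0 := by exact_mod_cast hb0
    have hD0p : (D : ℚ_[p i]) ≠ 0 := by exact_mod_cast hD0
    simp only [eq_ratCast] at d1 d2 d3
    refine ⟨?_, ?_, ?_⟩
    · rw [Rat.cast_add, Rat.cast_intCast]
      have e : (x' : ℚ_[p i]) + γ - s i = x' - (s i - γ) := by ring
      rw [e]; exact d1
    · rw [Rat.cast_mul, Rat.cast_intCast]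
      have e : (b' : ℚ_[p i]) * y' - t i = b' * (y' - t i / b') := by
        field_simp
      rw [e, norm_mul, hbn, one_mul]; exact d2
    · rw [Rat.cast_div, Rat.cast_intCast]
      have e : (D : ℚ_[p i]) * ((w' : ℚ_[p i]) / D - W i) = w' - D * W i := by
        field_simp
      have e2 : ‖(w' : ℚ_[p i]) / D - W i‖ = ‖(D : ℚ_[p i]) * ((w' : ℚ_[p i]) / D - W i)‖ := by
        rw [norm_mul, hDn, one_mul]
      rw [e2, e]; exact d3

/-- all coordinates but one can be moved -/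
lemma chainp [Nonempty κ] (hinj : Injective p)
    (hF : ∀ z : ι → ℝ, 0 < fm c z fun _ => 1)
    (H : ∀ i, SP (p i) c (ν i) (β i) (a₀ i) (a i)) {x : ι → ℚ} {w : ℚ}
    (hw2 : w ^ 2 = fm c x fun _ => 1) (hwp : 0 < w) (hw : ∀ i, ‖(w : ℚ_[p i])‖ = 1) {X : ∀ i, ι → ℚ_[p i]}
    (hXi : ∀ i l, ‖X i l‖ ≤ 1) (j₀ : ι) (T : Finset ι) (hT : j₀ ∉ T) {δ : ℝ} (hδ : 0 < δ) :
    ∃ (x₁ : ι → ℚ) (w₁ : ℚ), w₁ ^ 2 = fm c x₁ (fun _ => 1) ∧ 0 < w₁ ∧
      (∀ i, ‖(w₁ : ℚ_[p i])‖ = 1) ∧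
      ∀ i, ∀ l ∈ T, ‖(x₁ l : ℚ_[p i]) - X i l‖ < δ := by
  induction T using Finset.induction_on with
  | empty => exact ⟨x, w, hw2, hwp, hw, fun i l hl => by simp at hl⟩
  | insert k T hk ih =>
    obtain ⟨x₁, w₁, h1, h1p, h2, h3⟩ := ih fun h => hT (Finset.mem_insert_of_mem h)
    have hkj : k ≠ j₀ := by
      rintro rfl
      exact hT (Finset.mem_insert_self _ _)
    -- the local targets
    have hex : ∀ i, ∃ t W : ℚ_[p i], ‖W‖ = 1 ∧
        W ^ 2 = fm c (up k j₀ (fun l => (x₁ l : ℚ_[p i])) (X i k) t) fun _ => 1 := by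
      intro i
      have hint : ∀ l, ‖update (fun l => (x₁ l : ℚ_[p i])) k (X i k) l‖ ≤ 1 := by
        intro l
        by_cases hl : l = k
        · subst hl; rw [update_self]; exact hXi i l
        · rw [update_of_ne hl]
          exact (H i).int (cast_sq_fm (p := p i) h1) l
      obtain ⟨X0, hX0⟩ : ∃ X0 : ι → ℤ_[p i], ∀ l, (X0 l : ℚ_[p i]) =
          update (fun l => (x₁ l : ℚ_[p i])) k (X i k) l :=
        ⟨fun l => ⟨_, hint l⟩, fun l => rfl⟩
      obtain ⟨t, W, hW1, hW2⟩ := (H i).unit_pt j₀ X0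
      refine ⟨t, W, by rw [coe_norm]; exact hW2, ?_⟩
      have h4 : ((W ^ 2 : ℤ_[p i]) : ℚ_[p i]) =
          ((fm c (update X0 j₀ t) (fun _ => 1) : ℤ_[p i]) : ℚ_[p i]) := by rw [hW1]
      rw [coe_fm, PadicInt.coe_pow, PadicInt.coe_one] at h4
      rw [h4]
      congr 1
      funext l
      by_cases hl : l = j₀
      · subst hl; rw [up_j, update_self]
      · rw [update_of_ne hl, up, update_of_ne hl, hX0]
    choose t W hW1 hW2 using hex
    obtain ⟨s₁, t₁, w₂, g1, gp, g2⟩ := slicep_dense hinj hF H hkj h1 h1p h2 (s := fun i => X i k) (t := t)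
      (W := W) hW2 (ε := min δ 1) (lt_min hδ one_pos)
    refine ⟨up k j₀ x₁ s₁ t₁, w₂, g1, gp, fun i => ?_, fun i l hl => ?_⟩
    · exact norm_unit_of_near (hW1 i) ((g2 i).2.2.trans_le (min_le_right _ _))
    · rcases Finset.mem_insert.1 hl with rfl | hl'
      · rw [up_k hkj]
        exact (g2 i).1.trans_le (min_le_left _ _)
      · have hlk : l ≠ k := by rintro rfl; exact hk hl'
        have hlj : l ≠ j₀ := by
          rintro rfl
          exact hT (Finset.mem_insert_of_mem hl')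
        rw [up_ne hlj hlk]
        exact h3 i l hl'

/-- density, nonzero ordinates -/
lemma densep_n' [Nonempty κ] (hinj : Injective p)
    (hF : ∀ z : ι → ℝ, 0 < fm c z fun _ => 1)
    (H : ∀ i, SP (p i) c (ν i) (β i) (a₀ i) (a i)) {k₀ j₀ : ι} (hkj : k₀ ≠ j₀) {x : ι → ℚ} {w : ℚ}
    (hw2 : w ^ 2 = fm c x fun _ => 1) (hwp : 0 < w) (hw : ∀ i, ‖(w : ℚ_[p i])‖ = 1) {X : ∀ i, ι → ℚ_[p i]}
    {W : ∀ i, ℚ_[p i]} (hX : ∀ i, W i ^ 2 = fm c (X i) fun _ => 1) (hW : ∀ i, W i ≠ 0)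
    {ε : ℝ} (hε : 0 < ε) :
    ∃ (x₁ : ι → ℚ) (w₁ : ℚ), w₁ ^ 2 = fm c x₁ (fun _ => 1) ∧ 0 < w₁ ∧
      ∀ i, (∀ l, ‖(x₁ l : ℚ_[p i]) - X i l‖ < ε) ∧ ‖(w₁ : ℚ_[p i]) - W i‖ < ε := by
  have hXi : ∀ i l, ‖X i l‖ ≤ 1 := fun i l => (H i).int (hX i) l
  have hε2 : 0 < ε / 2 := by positivity
  have hδ : ∀ i, ∃ δ : ℝ, 0 < δ ∧ ∀ z : ι → ℚ_[p i], (∀ l, ‖z l - X i l‖ < δ) →
      ∃ Z : ℚ_[p i], ‖Z - W i‖ < ε / 2 ∧ Z ^ 2 = fm c z fun _ => 1 := by
    intro i
    obtain ⟨δ, hδ, hs⟩ := exists_sqrt (hW i) hε2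
    have hcont : Continuous fun z : ι → ℚ_[p i] => fm c z fun _ => 1 := by
      unfold fm; fun_prop
    have h1 : ∀ᶠ z in 𝓝 (X i), ‖(fm c z fun _ => 1) - W i ^ 2‖ < δ := by
      have h2 : Tendsto (fun z => ‖(fm c z fun _ => 1) - W i ^ 2‖) (𝓝 (X i)) (𝓝 0) := by
        have := ((hcont.tendsto (X i)).sub_const (W i ^ 2)).norm
        rwa [← hX i, sub_self, norm_zero] at this
      exact h2.eventually_lt_const hδ
    obtain ⟨δ', hδ', hb⟩ := Metric.eventually_nhds_iff_ball.1 h1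
    refine ⟨δ', hδ', fun z hz => hs _ (hb z ?_)⟩
    rw [mem_ball_iff_norm, pi_norm_lt_iff hδ']
    exact hz
  choose δ hδ0 hδs using hδ
  obtain ⟨δ₀, hδ₀, hδ₀i⟩ := fin_min hδ0
  obtain ⟨x₁, w₁, h1, h1p, h2, h3⟩ := chainp hinj hF H hw2 hwp hw hXi j₀ (rs k₀ j₀)
    (fun h => (mem_rs.1 h).1 rfl) (δ := min δ₀ ε) (lt_min hδ₀ hε)
  have hnear : ∀ i l, ‖up k₀ j₀ (fun l => (x₁ l : ℚ_[p i])) (X i k₀) (X i j₀) l - X i l‖ <
      min δ₀ ε := by
    intro i l
    by_cases hj : l = j₀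
    · subst hj
      rw [up_j, sub_self, norm_zero]; exact lt_min hδ₀ hε
    · by_cases hk : l = k₀
      · subst hk
        rw [up_k hkj, sub_self, norm_zero]; exact lt_min hδ₀ hε
      · rw [up_ne hj hk]
        exact h3 i l (mem_rs.2 ⟨hj, hk⟩)
  choose Z hZ1 hZ2 using fun i => hδs i _ fun l =>
    (hnear i l).trans_le ((min_le_left _ _).trans (hδ₀i i))
  obtain ⟨s₁, t₁, w₂, g1, gp, g2⟩ := slicep_dense hinj hF H hkj h1 h1p h2 (s := fun i => X i k₀)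
    (t := fun i => X i j₀) (W := Z) hZ2 hε2
  refine ⟨up k₀ j₀ x₁ s₁ t₁, w₂, g1, gp, fun i => ⟨fun l => ?_, ?_⟩⟩
  · by_cases hj : l = j₀
    · subst hj
      rw [up_j]
      have := (g2 i).2.1
      linarith
    · by_cases hk : l = k₀
      · subst hk
        rw [up_k hkj]
        have := (g2 i).1
        linarith
      · rw [up_ne hj hk]
        exact (h3 i l (mem_rs.2 ⟨hj, hk⟩)).trans_le (min_le_right _ _)
  · have h4 := (g2 i).2.2
    have h5 := hZ1 i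
    have := norm_sub_le_norm_sub_add_norm_sub (w₂ : ℚ_[p i]) (Z i) (W i)
    linarith

/-- **The rational points are dense in the product of the sets of local points.** -/
theorem densep_n [Nonempty κ] (hinj : Injective p)
    (hF : ∀ z : ι → ℝ, 0 < fm c z fun _ => 1)
    (H : ∀ i, SP (p i) c (ν i) (β i) (a₀ i) (a i)) {k₀ j₀ : ι} (hkj : k₀ ≠ j₀) {x : ι → ℚ} {w : ℚ}
    (hw2 : w ^ 2 = fm c x fun _ => 1) (hwp : 0 < w) (hw : ∀ i, ‖(w : ℚ_[p i])‖ = 1) {X : ∀ i, ι → ℚ_[p i]}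
    {W : ∀ i, ℚ_[p i]} (hX : ∀ i, W i ^ 2 = fm c (X i) fun _ => 1)
    {ε : ℝ} (hε : 0 < ε) :
    ∃ (x₁ : ι → ℚ) (w₁ : ℚ), w₁ ^ 2 = fm c x₁ (fun _ => 1) ∧ 0 < w₁ ∧
      ∀ i, (∀ l, ‖(x₁ l : ℚ_[p i]) - X i l‖ < ε) ∧ ‖(w₁ : ℚ_[p i]) - W i‖ < ε := by
  have hε2 : 0 < ε / 2 := by positivity
  choose t W' k1 k2 k3 k4 using fun i => (H i).near j₀ (hX i) hε2
  obtain ⟨x₁, w₁, g1, gp, g2⟩ := densep_n' hinj hF H hkj hw2 hwp hw k2 k1 hε2
  refine ⟨x₁, w₁, g1, gp, fun i => ⟨fun l => ?_, ?_⟩⟩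
  · have h1 := (g2 i).1 l
    by_cases hl : l = j₀
    · subst hl
      rw [update_self] at h1
      have h2 := k3 i
      have := norm_sub_le_norm_sub_add_norm_sub (x₁ l : ℚ_[p i]) (t i) (X i l)
      linarith
    · rw [update_of_ne hl] at h1
      linarith
  · have h1 := (g2 i).2
    have h2 := k4 i
    have := norm_sub_le_norm_sub_add_norm_sub (w₁ : ℚ_[p i]) (W' i) (W i)
    linarith

end Pool.Agent.Y720.MZ
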