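import Pool.Agent.Y720.WF.R4

/-!
# Moves at the real place on one sheet (helper720)
-/

set_option autoImplicit false
set_option linter.unusedVariables false
set_option linter.unusedSectionVars false

open WeierstrassCurve Filter Topology

namespace Pool.Agent.Y720.MZ

section key

variable {q : ℕ} [hq : Fact q.Prime] {c h : Fin 5 → Fin 5 → ℤ} {ν b : ℤ}

/-- **The fibres**, without condition on the ordinate. -/
theorem G4.cu0 (H : G4 q c h ν b) {X Y W : ℤ_[q]} (hW : W ^ 2 = F4 c X Y) :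
    Cu (av (RingHom.id ℚ_[q])) ‖(q : ℚ_[q])‖ ((tq c X Y 1 : ℤ_[q]) : ℚ_[q])
      ((rb W (tq c X Y 0) (tq c X Y 2) (tq c X Y 3) : ℤ_[q]) : ℚ_[q])
      ((rc W (tq c X Y 0) (tq c X Y 1) (tq c X Y 2) (tq c X Y 3) : ℤ_[q]) : ℚ_[q])
      (-((tq c X Y 1 : ℤ_[q]) : ℚ_[q]) / 3) := by
  have h11 := H.h11
  obtain ⟨q0, q1, q2, q3⟩ := tq_split H.hc X Y
  have hT := F4_taylor h X Y
  rw [F4_split H.hc] at hW
  have hd := H.hd (PadicInt.toZMod X)
  rw [← map_F4] at hd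
  set Q0 := tq c X Y 0
  set Q1 := tq c X Y 1
  set Q2 := tq c X Y 2
  set Q3 := tq c X Y 3
  set η0 := F4 h X Y
  set η1 := tq h X Y 0
  set η2 := tq h X Y 1
  set η3 := tq h X Y 2
  set η4 := tq h X Y 3
  set U := X - Y
  have n2 : ‖(2 : ℚ_[q])‖ = 1 := by exact_mod_cast nat_one (p := q) (n := 2) (by norm_num) (by omega)
  have n3 : ‖(3 : ℚ_[q])‖ = 1 := by exact_mod_cast nat_one (p := q) (n := 3) (by norm_num) (by omega)
  have n5 : ‖(5 : ℚ_[q])‖ = 1 := by exact_mod_cast nat_one (p := q) (n := 5) (by norm_num) (by omega)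
  have n7 : ‖(7 : ℚ_[q])‖ = 1 := by exact_mod_cast nat_one (p := q) (n := 7) (by norm_num) (by omega)
  have c3 : (3 : ℚ_[q]) ≠ 0 := by norm_num
  have k2 : ((2 : ℤ_[q]) : ℚ_[q]) = 2 := map_ofNat (PadicInt.Coe.ringHom (p := q)) 2
  have k3 : ((3 : ℤ_[q]) : ℚ_[q]) = 3 := map_ofNat (PadicInt.Coe.ringHom (p := q)) 3
  have k4 : ((4 : ℤ_[q]) : ℚ_[q]) = 4 := map_ofNat (PadicInt.Coe.ringHom (p := q)) 4
  have k8 : ((8 : ℤ_[q]) : ℚ_[q]) = 8 := map_ofNat (PadicInt.Coe.ringHom (p := q)) 8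
  have k9 : ((9 : ℤ_[q]) : ℚ_[q]) = 9 := map_ofNat (PadicInt.Coe.ringHom (p := q)) 9
  have k27 : ((27 : ℤ_[q]) : ℚ_[q]) = 27 := map_ofNat (PadicInt.Coe.ringHom (p := q)) 27
  have m3 : (3 : ZMod q) ≠ 0 := by
    intro h0
    have h1 : ((3 : ℕ) : ZMod q) = 0 := by exact_mod_cast h0
    rw [ZMod.natCast_eq_zero_iff] at h1
    have := Nat.le_of_dvd (by norm_num) h1
    omega
  -- the three identities
  have i1 : fC (W ^ 2) Q0 Q1 Q2 Q3 = q * (27 * ν ^ 2 * b ^ 2 * F4 h X X +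
      q * (dC η0 η1 η2 η3 η4 (ν * U ^ 3 * (U + b)) (ν * (-4 * U ^ 3 - 3 * b * U ^ 2))
        (ν * (6 * U ^ 2 + 3 * b * U)) (ν * (-4 * U - b)) ν + q * fC η0 η1 η2 η3 η4)) := by
    rw [hW, q0, q1, q2, q3, fC_add, fC_g, dC_g, hT]
    ring
  have i2 : 3 * rb W Q0 Q2 Q3 - Q1 ^ 2 = q * (3 * (ν * (-4 * U ^ 3 - 3 * b * U ^ 2) * η3 +
      η1 * (ν * (-4 * U - b)) - 4 * (ν * U ^ 3 * (U + b)) * η4 - 4 * η0 * ν) -
      2 * (ν * (6 * U ^ 2 + 3 * b * U)) * η2 + q * (3 * (η1 * η3 - 4 * η0 * η4) - η2 ^ 2)) := by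
    rw [rb, hW, q0, q1, q2, q3]
    ring
  have u1 : ‖(27 * ν ^ 2 * b ^ 2 * F4 h X X +
      q * (dC η0 η1 η2 η3 η4 (ν * U ^ 3 * (U + b)) (ν * (-4 * U ^ 3 - 3 * b * U ^ 2))
        (ν * (6 * U ^ 2 + 3 * b * U)) (ν * (-4 * U - b)) ν + q * fC η0 η1 η2 η3 η4) : ℤ_[q])‖ = 1 := by
    rw [← red_one, map_add, map_mul _ (q : ℤ_[q]), toZ_p, zero_mul, add_zero]
    simp only [map_mul, map_pow, map_intCast, map_ofNat]
    refine mul_ne_zero (mul_ne_zero (mul_ne_zero ?_ (pow_ne_zero 2 H.hν0))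
      (pow_ne_zero 2 H.hb)) hd
    have : (27 : ZMod q) = 3 ^ 3 := by norm_num
    rw [this]
    exact pow_ne_zero 3 m3
  have e27 : ‖(27 : ℚ_[q])‖ = 1 := by
    rw [show (27 : ℚ_[q]) = 3 ^ 3 by norm_num, norm_pow, n3, one_pow]
  refine ⟨av_na' _, norm_p_pos, norm_p_lt, fun x hx => padic_disc x hx, fun x => padic_nsq x,
    ?_, ?_, ?_, ?_, ?_, ?_, ?_⟩
  · rw [av_apply, RingHom.id_apply]; exact n2
  · rw [av_apply, RingHom.id_apply]; exact n3
  · rw [av_apply, RingHom.id_apply]; exact n5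
  · rw [av_apply, RingHom.id_apply]; exact n7
  · have : sA (Q1 : ℚ_[q]) (-(Q1 : ℚ_[q]) / 3) = 0 := by unfold sA; field_simp; ring
    rw [this, map_zero]
    exact norm_nonneg _
  · rw [av_apply, RingHom.id_apply]
    have e1 : sB (Q1 : ℚ_[q]) ((rb W Q0 Q2 Q3 : ℤ_[q]) : ℚ_[q]) (-(Q1 : ℚ_[q]) / 3) =
        ((3 * rb W Q0 Q2 Q3 - Q1 ^ 2 : ℤ_[q]) : ℚ_[q]) / 3 := by
      unfold sB; push_cast; simp only [k3]; field_simp; ring
    rw [e1, norm_div, n3, div_one, i2, coe_norm, norm_mul, PadicInt.norm_p, ← Padic.norm_p]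
    exact mul_le_of_le_one_right (norm_nonneg _) (PadicInt.norm_le_one _)
  · rw [av_apply, RingHom.id_apply]
    have e1 : sC (Q1 : ℚ_[q]) ((rb W Q0 Q2 Q3 : ℤ_[q]) : ℚ_[q])
        ((rc W Q0 Q1 Q2 Q3 : ℤ_[q]) : ℚ_[q]) (-(Q1 : ℚ_[q]) / 3) =
        ((fC (W ^ 2) Q0 Q1 Q2 Q3 : ℤ_[q]) : ℚ_[q]) / 27 := by
      unfold sC fC rb rc; push_cast; simp only [k2, k4, k9, k27]; field_simp; ring
    rw [e1, norm_div, e27, div_one, i1, coe_norm, norm_mul, u1, mul_one, PadicInt.norm_p,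
      ← Padic.norm_p]

/-- the resolvent of the fibre through a point over `K` -/
theorem G4.key0 {K : Type*} [Field K] (H : G4 q c h ν b) {σ : K →+* ℚ_[q]}
    {x y w : K} (hxy : w ^ 2 = F4 c x y) :
    Cu (av σ) ‖(q : ℚ_[q])‖ (tA (w, tq c x y)) (tB (w, tq c x y)) (tC (w, tq c x y))
        (-(tq c x y 1) / 3) := by
  have hm : (σ w) ^ 2 = F4 c (σ x) (σ y) := by rw [← map_pow, hxy, map_F4]
  obtain ⟨X0, Y0, W0, e1, e2, e3, e4, e5⟩ := H.int hm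
  have k1 := H.cu0 e4
  have p1 : ∀ j, ((tq c X0 Y0 j : ℤ_[q]) : ℚ_[q]) = σ (tq c x y j) := by
    intro j
    rw [tq_coe, map_tq, e1, e2]
  have q3 : -((tq c X0 Y0 1 : ℤ_[q]) : ℚ_[q]) / 3 = σ (-(tq c x y 1) / 3) := by
    rw [p1]; simp [map_ofNat]
  have kb : ((rb W0 (tq c X0 Y0 0) (tq c X0 Y0 2) (tq c X0 Y0 3) : ℤ_[q]) : ℚ_[q]) =
      σ (tB (w, tq c x y)) := by
    have : tB (w, tq c x y) = rb w (tq c x y 0) (tq c x y 2) (tq c x y 3) := rfl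
    rw [this]
    unfold rb
    have k4 : ((4 : ℤ_[q]) : ℚ_[q]) = 4 := map_ofNat (PadicInt.Coe.ringHom (p := q)) 4
    push_cast
    simp only [k4, p1, map_sub, map_mul, map_pow, map_ofNat, ← e3]
  have kc : ((rc W0 (tq c X0 Y0 0) (tq c X0 Y0 1) (tq c X0 Y0 2) (tq c X0 Y0 3) : ℤ_[q]) :
      ℚ_[q]) = σ (tC (w, tq c x y)) := by
    have : tC (w, tq c x y) = rc w (tq c x y 0) (tq c x y 1) (tq c x y 2) (tq c x y 3) := rfl
    rw [this]
    unfold rc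
    have k4 : ((4 : ℤ_[q]) : ℚ_[q]) = 4 := map_ofNat (PadicInt.Coe.ringHom (p := q)) 4
    push_cast
    simp only [k4, p1, map_sub, map_add, map_mul, map_pow, map_ofNat, ← e3]
  rw [q3, p1 1, kb, kc] at k1
  exact Cu.of_map σ k1

/-- the differences have infinite order over the local field -/
theorem G4.io {K : Type*} [Field K] (H : G4 q c h ν b) {σ : K →+* ℚ_[q]} {x y w : K}
    (hxy : w ^ 2 = F4 c x y) : IOt (σ w, tq c (σ x) (σ y)) := by
  letI : DecidableEq ℚ_[q] := Classical.decEq _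
  have hm : (σ w) ^ 2 = F4 c (σ x) (σ y) := by rw [← map_pow, hxy, map_F4]
  have h1 := H.key0 (σ := RingHom.id ℚ_[q]) hm
  refine ⟨h1.dsc_ne, fun hns n hn => ?_⟩
  exact h1.tf (by intro h0; exact absurd h0 (by simp)) hn

end key

variable {K : Type*} [Field K] [CharZero K] {ι : Type*} [Fintype ι] {p : ι → ℕ}
  [hp : ∀ i, Fact (p i).Prime] {σ : ∀ i, K →+* ℚ_[p i]} {τ : K →+* ℝ}
  {c : Fin 5 → Fin 5 → ℤ} {x₀ y₀ w₀ : K}

/-- **Moves to all the real points of a line.** -/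
theorem Cr.line [Nonempty ι] (hinj : Function.Injective p) (hF : ∀ x y : ℝ, 0 < F4 c x y)
    (h0 : w₀ ^ 2 = F4 c x₀ y₀) (hw₀ : 0 < τ w₀)
    (hio : ∀ i, IOt (σ i w₀, tq c (σ i x₀) (σ i y₀))) (T : ℝ) :
    Cr σ τ c x₀ y₀ w₀ (τ x₀) T (Real.sqrt (F4 c (τ x₀) T)) := by
  have hw0 : w₀ ≠ 0 := by
    rintro rfl
    rw [map_zero] at hw₀
    exact lt_irrefl _ hw₀
  have hE : dn4 c x₀ ≠ 0 := by
    obtain ⟨i⟩ := ‹Nonempty ι›
    obtain ⟨h1, -⟩ := hio i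
    have hm : (σ i w₀) ^ 2 = F4 c (σ i x₀) (σ i y₀) := by rw [← map_pow, h0, map_F4]
    rw [dn4_eq c hm, ← map_dn4] at h1
    intro h2
    exact h1 (by rw [h2, map_zero])
  have hEτ : dn4 c (τ x₀) ≠ 0 := by
    rw [← map_dn4]
    exact (map_ne_zero τ).2 hE
  set f : ℝ → ℝ := fun T => Real.sqrt (F4 c (τ x₀) T) with hf
  have hfc : Continuous f := by
    have h1 : Continuous fun y : ℝ => F4 c (τ x₀) y := by unfold F4; fun_prop
    exact h1.sqrt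
  have hf2 : ∀ T, f T ^ 2 = F4 c (τ x₀) T := fun T => Real.sq_sqrt (hF _ _).le
  have hf0 : ∀ T, f T ≠ 0 := fun T => (Real.sqrt_pos.2 (hF _ _)).ne'
  set A : Set ℝ := {T | Cr σ τ c x₀ y₀ w₀ (τ x₀) T (f T)} with hA
  have hstart : τ y₀ ∈ A := by
    have e1 : f (τ y₀) = τ w₀ := by
      have : F4 c (τ x₀) (τ y₀) = (τ w₀) ^ 2 := by rw [← map_pow, h0, map_F4]
      rw [hf]
      dsimp only
      rw [this, Real.sqrt_sq hw₀.le]
    rw [hA, Set.mem_setOf_eq, e1]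
    exact Cr.self h0
  have hopen : IsOpen A := by
    rw [isOpen_iff_mem_nhds]
    intro T hT
    obtain ⟨δ, hδ, hd⟩ := Cr.mv_y hinj hw0 hio hT (hf0 T) (by
      rw [dn4_eq c (hf2 T)]; exact hEτ)
    have h1 : ∀ᶠ T' in 𝓝 T, |f T' - f T| < δ := by
      have h2 : Tendsto (fun T' => |f T' - f T|) (𝓝 T) (𝓝 0) := by
        have := ((hfc.tendsto T).sub_const (f T)).abs
        simpa using this
      exact h2.eventually_lt_const hδ
    have h3 : ∀ᶠ T' in 𝓝 T, |T' - T| < δ := by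
      have h2 : Tendsto (fun T' => |T' - T|) (𝓝 T) (𝓝 0) := by
        have := ((continuous_id.tendsto T).sub_const T).abs
        simpa using this
      exact h2.eventually_lt_const hδ
    filter_upwards [h1, h3] with T' a1 a2
    exact hd T' (f T') a2 a1 (hf2 T')
  have hclosed : IsClosed A := by
    rw [← isOpen_compl_iff, isOpen_iff_mem_nhds]
    intro T hT
    by_contra hcon
    apply hT
    refine Cr.lim fun η hη => ?_
    have h1 : ∀ᶠ T' in 𝓝 T, |f T' - f T| < η := by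
      have h2 : Tendsto (fun T' => |f T' - f T|) (𝓝 T) (𝓝 0) := by
        have := ((hfc.tendsto T).sub_const (f T)).abs
        simpa using this
      exact h2.eventually_lt_const hη
    have h3 : ∀ᶠ T' in 𝓝 T, |T' - T| < η := by
      have h2 : Tendsto (fun T' => |T' - T|) (𝓝 T) (𝓝 0) := by
        have := ((continuous_id.tendsto T).sub_const T).abs
        simpa using this
      exact h2.eventually_lt_const hη
    have h4 : ∃ᶠ T' in 𝓝 T, T' ∈ A := by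
      intro h5
      apply hcon
      filter_upwards [h5] with T' hT'
      exact hT'
    obtain ⟨T', a1, a2, a3⟩ := (h4.and_eventually (h1.and h3)).exists
    exact ⟨τ x₀, T', f T', by rw [sub_self, abs_zero]; exact hη, a3, a2, a1⟩
  have huniv : A = Set.univ := IsClopen.eq_univ ⟨hclosed, hopen⟩ ⟨_, hstart⟩
  have : T ∈ A := by rw [huniv]; trivial
  exact this

end Pool.Agent.Y720.MZ
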