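import Pool.Agent.Y720.WF.R5

/-!
# Special reduction in several variables: moves at the real place (helper720)
-/

set_option autoImplicit false
set_option linter.unusedVariables false
set_option linter.unusedSectionVars false

open Function Filter Topology

namespace Pool.Agent.Y720.MZ

variable {ι : Type*} [Fintype ι] [DecidableEq ι]

variable {κ : Type*} [Fintype κ] {p : κ → ℕ} [hp : ∀ i, Fact (p i).Prime]
  {c : (ι → Fin 5) → ℤ} {ν β a₀ : κ → ℤ} {a : κ → ι → ℤ}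

/-- the slice through a rational point, in special coordinates -/
theorem slice_data [Nonempty κ] (hinj : Injective p)
    (H : ∀ i, SP (p i) c (ν i) (β i) (a₀ i) (a i)) {k j : ι} (hkj : k ≠ j) {x : ι → ℚ} {w : ℚ}
    (hw2 : w ^ 2 = fm c x fun _ => 1) :
    ∃ (C : Fin 5 → Fin 5 → ℤ) (γ b' D : ℤ) (ν' b'' : κ → ℤ) (h : κ → Fin 5 → Fin 5 → ℤ),
      (∀ i, G4 (p i) C (h i) (ν' i) (b'' i)) ∧ (∀ i, ‖(b' : ℚ_[p i])‖ = 1) ∧
      (∀ i, ‖(D : ℚ_[p i])‖ = 1) ∧ 0 < D ∧ b' ≠ 0 ∧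
      (∀ s t : ℚ, F4 C (s - γ) (t / b') = (D : ℚ) ^ 2 * fm c (up k j x s t) fun _ => 1) ∧
      (∀ s t : ℝ, F4 C (s - γ) (t / b') =
        (D : ℝ) ^ 2 * fm c (up k j (fun l => (x l : ℝ)) s t) fun _ => 1) := by
  have hpp : ∀ i, Prime (p i : ℤ) := fun i => Nat.prime_iff_prime_int.1 (hp i).out
  set m : ι → ℤ := fun l => (x l).num with hm
  set N : ι → ℤ := fun l => ((x l).den : ℤ) with hN
  have hN1 : ∀ i l, ¬ (p i : ℤ) ∣ N l := fun i l =>
    den_ndvd ((H i).int (cast_sq_fm (p := p i) hw2) l)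
  have hY : ∀ i, ((∏ l ∈ rs k j, N l : ℤ) : ZMod (p i)) ≠ 0 := by
    intro i h0
    have h3 := (ZMod.intCast_zmod_eq_zero_iff_dvd _ (p i)).1 h0
    obtain ⟨l, -, hl⟩ := (Prime.dvd_finsetProd_iff (hpp i) _).1 h3
    exact hN1 i l hl
  choose rb hrb using fun i => lin_solve (p := p i) (u := a i j) (v := a i k) ((H i).na j)
  obtain ⟨b', hb'⟩ := crtκ hinj rb
  choose rg hrg using fun i => lin_solve (p := p i) (u := a i k * ∏ l ∈ rs k j, N l)
    (v := lk (a₀ i) (a i) k j m N) (by push_cast; exact mul_ne_zero ((H i).na k) (by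
      have := hY i; push_cast at this; exact this))
  obtain ⟨γ, hγ⟩ := crtκ hinj rg
  have c1 : ∀ i, (p i : ℤ) ∣ a i j * b' + a i k := by
    intro i
    have e : a i j * b' + a i k = a i j * (b' - rb i) + (a i j * rb i + a i k) := by ring
    rw [e]
    exact dvd_add ((hb' i).mul_left _) (hrb i)
  have c2 : ∀ i, (p i : ℤ) ∣ a i k * (∏ l ∈ rs k j, N l) * γ + lk (a₀ i) (a i) k j m N := by
    intro i
    have e : a i k * (∏ l ∈ rs k j, N l) * γ + lk (a₀ i) (a i) k j m N =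
        a i k * (∏ l ∈ rs k j, N l) * (γ - rg i) +
        (a i k * (∏ l ∈ rs k j, N l) * rg i + lk (a₀ i) (a i) k j m N) := by ring
    rw [e]
    exact dvd_add ((hγ i).mul_left _) (hrg i)
  choose ν' b'' h hG using fun i => (H i).slice hkj (hN1 i) (c1 i) (c2 i)
  have hbp : ∀ i, ¬ (p i : ℤ) ∣ b' := by
    intro i h0
    apply (H i).ha k
    exact (Int.dvd_add_right (h0.mul_left _)).1 (c1 i)
  obtain ⟨i₀⟩ := ‹Nonempty κ›
  have hb0 : b' ≠ 0 := by
    rintro rfl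
    exact hbp i₀ (dvd_zero _)
  set D : ℤ := ∏ l, (up k j N 1 1 l) ^ 2 with hD
  have hDp : ∀ i, ¬ (p i : ℤ) ∣ D := by
    intro i h0
    obtain ⟨l, -, hl⟩ := (Prime.dvd_finsetProd_iff (hpp i) _).1 h0
    have h1 := (hpp i).dvd_of_dvd_pow hl
    by_cases hj : l = j
    · subst hj
      rw [up_j] at h1
      exact (hpp i).not_dvd_one h1
    · by_cases hk : l = k
      · subst hk
        rw [up_k hkj] at h1
        exact (hpp i).not_dvd_one h1
      · rw [up_ne hj hk] at h1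
        exact hN1 i l h1
  have hD0 : D ≠ 0 := by
    intro h0
    exact hDp i₀ (by rw [h0]; exact dvd_zero _)
  set C : Fin 5 → Fin 5 → ℤ := tr γ b' (sl c k j m N) with hC
  have main : ∀ (R : Type) [Field R] [CharZero R] (x' : ι → R)
      (hx' : ∀ l, (N l : R) * x' l = (m l : R)) (s t : R),
      F4 C (s - γ) (t / b') = (D : R) ^ 2 * fm c (up k j x' s t) fun _ => 1 := by
    intro R _ _ x' hx' s t
    have hb0' : (b' : R) ≠ 0 := by exact_mod_cast hb0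
    rw [hC, F4_tr, sub_add_cancel, mul_div_cancel₀ _ hb0', F4_sl c hkj]
    have h1 := fm_scale c (up k j x' s t) (up k j (fun l => (N l : R)) 1 1)
    have h2 : (fun i => up k j (fun l => (N l : R)) 1 1 i * up k j x' s t i) =
        up k j (fun l => (m l : R)) s t := by
      funext l
      by_cases hj : l = j
      · subst hj
        rw [up_j, up_j, up_j, one_mul]
      · by_cases hk : l = k
        · subst hk
          rw [up_k hkj, up_k hkj, up_k hkj, one_mul]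
        · rw [up_ne hj hk, up_ne hj hk, up_ne hj hk, hx']
    rw [h2] at h1
    rw [h1, hD]
    push_cast
    congr 3
    funext l
    have := congrFun (map_up (fun z : ℤ => (z : R)) k j N 1 1) l
    simp only [Int.cast_one] at this
    rw [← this]
  have hNx : ∀ l, ((N l : ℤ) : ℚ) * x l = (m l : ℚ) := fun l => by
    rw [hN, hm]
    dsimp only
    rw [mul_comm]
    exact_mod_cast Rat.mul_den_eq_num (x l)
  have hNr : ∀ l, ((N l : ℤ) : ℝ) * (x l : ℝ) = (m l : ℝ) := fun l => by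
    exact_mod_cast congrArg (fun q : ℚ => (q : ℝ)) (hNx l)
  exact ⟨C, γ, b', D, ν', b'', h, hG, fun i => unit_norm (hbp i), fun i => unit_norm (hDp i),
    lt_of_le_of_ne (Finset.prod_nonneg fun l _ => sq_nonneg _) hD0.symm, hb0,
    main ℚ x hNx, main ℝ (fun l => (x l : ℝ)) hNr⟩

/-- **One coordinate is moved at the real place.** -/
theorem real_move [Nonempty κ] (hinj : Injective p)
    (hF : ∀ z : ι → ℝ, 0 < fm c z fun _ => 1)
    (H : ∀ i, SP (p i) c (ν i) (β i) (a₀ i) (a i)) {k j : ι} (hkj : k ≠ j) {x : ι → ℚ} {w : ℚ}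
    (hw2 : w ^ 2 = fm c x fun _ => 1) (hwp : 0 < w) (T : ℝ)
    {η : ℝ} (hη : 0 < η) :
    ∃ (x₁ : ι → ℚ) (w₁ : ℚ), w₁ ^ 2 = fm c x₁ (fun _ => 1) ∧ 0 < w₁ ∧
      (|(x₁ j : ℝ) - T| < η ∧ ∀ l, l ≠ j → |(x₁ l : ℝ) - x l| < η) ∧
      ∀ i, (∀ l, ‖(x₁ l : ℚ_[p i]) - x l‖ < η) ∧ ‖(w₁ : ℚ_[p i]) - w‖ < η := by
  obtain ⟨C, γ, b', D, ν', b'', h, hG, hbn, hDn, hD, hb0, mQ, mR⟩ :=
    slice_data hinj H hkj hw2
  have hb0r : (b' : ℝ) ≠ 0 := by exact_mod_cast hb0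
  have hb0q : (b' : ℚ) ≠ 0 := by exact_mod_cast hb0
  have hDr : (0 : ℝ) < D := by exact_mod_cast hD
  have hDq : (0 : ℚ) < D := by exact_mod_cast hD
  have hCpos : ∀ x' y' : ℝ, 0 < F4 C x' y' := by
    intro x' y'
    have h1 := mR (x' + γ) (b' * y')
    rw [add_sub_cancel_right, mul_div_cancel_left₀ _ hb0r] at h1
    rw [h1]
    exact mul_pos (by positivity) (hF _)
  have h0 : (D * w) ^ 2 = F4 C (x k - γ) (x j / b') := by
    rw [mQ, up_self, mul_pow, hw2]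
  have hpos : (0 : ℝ) < (Rat.castHom ℝ) (D * w) := by
    rw [eq_ratCast]
    exact_mod_cast mul_pos hDq hwp
  set x₀ : ℚ := x k - γ with hx₀
  set y₀ : ℚ := x j / b' with hy₀
  have hcr := Cr.line (K := ℚ) (σ := fun i => Rat.castHom ℚ_[p i]) (τ := Rat.castHom ℝ) hinj
    hCpos h0 hpos (fun i => (hG i).io h0) (T / b')
  set S : ℝ := Real.sqrt (F4 C ((Rat.castHom ℝ) x₀) (T / b')) with hS
  have hS0 : 0 < S := Real.sqrt_pos.2 (hCpos _ _)
  set η' : ℝ := min (min η S) (η / (|(b' : ℝ)| + 1)) with hη'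
  have hb1 : 0 < |(b' : ℝ)| + 1 := by positivity
  have hη'0 : 0 < η' := lt_min (lt_min hη hS0) (div_pos hη hb1)
  have q1 : η' ≤ η := (min_le_left _ _).trans (min_le_left _ _)
  have q2 : η' ≤ S := (min_le_left _ _).trans (min_le_right _ _)
  have q3 : η' ≤ η / (|(b' : ℝ)| + 1) := min_le_right _ _
  obtain ⟨x', y', w', g1, ⟨r1, r2, r3⟩, g2⟩ := hcr η' hη'0
  simp only [eq_ratCast] at r1 r2 r3
  have hw'p : (0 : ℝ) < (w' : ℝ) := by
    have := (abs_lt.1 (r3.trans_le q2)).1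
    linarith
  refine ⟨up k j x (x' + γ) (b' * y'), w' / D, ?_, div_pos (by exact_mod_cast hw'p) hDq,
    ⟨?_, fun l hl => ?_⟩, fun i => ⟨fun l => ?_, ?_⟩⟩
  · have h1 := mQ (x' + γ) (b' * y')
    rw [add_sub_cancel_right, mul_div_cancel_left₀ _ hb0q, ← g1] at h1
    rw [div_pow, h1]
    field_simp
  · rw [up_j]
    have e1 : (((b' : ℚ) * y' : ℚ) : ℝ) - T = b' * ((y' : ℝ) - T / b') := by
      push_cast; field_simp
    rw [e1, abs_mul]
    have h2 : |(b' : ℝ)| * |(y' : ℝ) - T / b'| ≤ |(b' : ℝ)| * (η / (|(b' : ℝ)| + 1)) := by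
      gcongr
      exact (r2.trans_le q3).le
    refine h2.trans_lt ?_
    rw [mul_div_assoc', div_lt_iff₀ hb1]
    nlinarith
  · by_cases hk : l = k
    · subst hk
      rw [up_k hkj]
      have e1 : (((x' + γ : ℚ)) : ℝ) - x l = (x' : ℝ) - (x₀ : ℝ) := by
        rw [hx₀]; push_cast; ring
      rw [e1]
      exact r1.trans_le q1
    · rw [up_ne hl hk, sub_self, abs_zero]
      exact hη
  · obtain ⟨d1, d2, d3⟩ := g2 i
    simp only [eq_ratCast] at d1 d2 d3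
    by_cases hj : l = j
    · subst hj
      rw [up_j]
      have hb0p : (b' : ℚ_[p i]) ≠ 0 := by exact_mod_cast hb0
      have e : (((b' : ℚ) * y' : ℚ) : ℚ_[p i]) - x l = b' * ((y' : ℚ_[p i]) - (y₀ : ℚ_[p i])) := by
        rw [hy₀]; push_cast; field_simp
      rw [e, norm_mul, hbn, one_mul]
      exact d2.trans_le q1
    · by_cases hk : l = k
      · subst hk
        rw [up_k hkj]
        have e : ((x' + γ : ℚ) : ℚ_[p i]) - x l = (x' : ℚ_[p i]) - (x₀ : ℚ_[p i]) := by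
          rw [hx₀]; push_cast; ring
        rw [e]
        exact d1.trans_le q1
      · rw [up_ne hj hk, sub_self, norm_zero]
        exact hη
  · obtain ⟨d1, d2, d3⟩ := g2 i
    simp only [eq_ratCast] at d3
    have hD0p : (D : ℚ_[p i]) ≠ 0 := by
      have : D ≠ 0 := hD.ne'
      exact_mod_cast this
    have e2 : ‖((w' / D : ℚ) : ℚ_[p i]) - w‖ =
        ‖(D : ℚ_[p i]) * (((w' / D : ℚ) : ℚ_[p i]) - w)‖ := by
      rw [norm_mul, hDn, one_mul]
    have e : (D : ℚ_[p i]) * (((w' / D : ℚ) : ℚ_[p i]) - w) = w' - ((D * w : ℚ) : ℚ_[p i]) := by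
      push_cast; field_simp
    rw [e2, e]
    exact d3.trans_le q1

/-- all the coordinates are moved at the real place -/
theorem real_moves [Nonempty κ] (hinj : Injective p)
    (hF : ∀ z : ι → ℝ, 0 < fm c z fun _ => 1)
    (H : ∀ i, SP (p i) c (ν i) (β i) (a₀ i) (a i)) {k₀ j₀ : ι} (hkj : k₀ ≠ j₀) {x : ι → ℚ}
    {w : ℚ} (hw2 : w ^ 2 = fm c x fun _ => 1) (hwp : 0 < w) (z : ι → ℝ) (T : Finset ι) :
    ∀ η : ℝ, 0 < η → ∃ (x₁ : ι → ℚ) (w₁ : ℚ), w₁ ^ 2 = fm c x₁ (fun _ => 1) ∧ 0 < w₁ ∧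
      (∀ l ∈ T, |(x₁ l : ℝ) - z l| < η) ∧
      ∀ i, (∀ l, ‖(x₁ l : ℚ_[p i]) - x l‖ < η) ∧ ‖(w₁ : ℚ_[p i]) - w‖ < η := by
  induction T using Finset.induction_on with
  | empty =>
    intro η hη
    refine ⟨x, w, hw2, hwp, fun l hl => by simp at hl, fun i => ⟨fun l => ?_, ?_⟩⟩
    · rw [sub_self, norm_zero]; exact hη
    · rw [sub_self, norm_zero]; exact hη
  | insert j T hj ih =>
    intro η hη
    obtain ⟨x₁, w₁, h1, h2, h3, h4⟩ := ih (η / 2) (half_pos hη)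
    obtain ⟨k, hk⟩ : ∃ k, k ≠ j := by
      by_cases h0 : j = k₀
      · exact ⟨j₀, by rw [h0]; exact hkj.symm⟩
      · exact ⟨k₀, fun h5 => h0 h5.symm⟩
    obtain ⟨x₂, w₂, g1, g2, ⟨g3, g4⟩, g5⟩ := real_move hinj hF H hk h1 h2 (z j) (half_pos hη)
    refine ⟨x₂, w₂, g1, g2, fun l hl => ?_, fun i => ⟨fun l => ?_, ?_⟩⟩
    · rcases Finset.mem_insert.1 hl with rfl | hl'
      · linarith
      · have hlj : l ≠ j := by
          rintro rfl
          exact hj hl'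
        have e1 := g4 l hlj
        have e2 := h3 l hl'
        have := abs_sub_le (x₂ l : ℝ) (x₁ l) (z l)
        linarith
    · have e1 := (g5 i).1 l
      have e2 := (h4 i).1 l
      have := norm_sub_le_norm_sub_add_norm_sub (x₂ l : ℚ_[p i]) (x₁ l) (x l)
      linarith
    · have e1 := (g5 i).2
      have e2 := (h4 i).2
      have := norm_sub_le_norm_sub_add_norm_sub (w₂ : ℚ_[p i]) w₁ w
      linarith

/-- **Density in the product of the sets of real and p-adic points.** -/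
theorem dense_real_n [Nonempty κ] (hinj : Injective p)
    (hF : ∀ z : ι → ℝ, 0 < fm c z fun _ => 1)
    (H : ∀ i, SP (p i) c (ν i) (β i) (a₀ i) (a i)) {k₀ j₀ : ι} (hkj : k₀ ≠ j₀) {x : ι → ℚ}
    {w : ℚ} (hw2 : w ^ 2 = fm c x fun _ => 1) (hw : ∀ i, ‖(w : ℚ_[p i])‖ = 1)
    {X : ∀ i, ι → ℚ_[p i]} {W : ∀ i, ℚ_[p i]} (hX : ∀ i, W i ^ 2 = fm c (X i) fun _ => 1)
    {z : ι → ℝ} {r : ℝ} (hz : r ^ 2 = fm c z fun _ => 1) {ε : ℝ} (hε : 0 < ε) :
    ∃ (x₁ : ι → ℚ) (w₁ : ℚ), w₁ ^ 2 = fm c x₁ (fun _ => 1) ∧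
      ((∀ l, |(x₁ l : ℝ) - z l| < ε) ∧ |(w₁ : ℝ) - r| < ε) ∧
      ∀ i, (∀ l, ‖(x₁ l : ℚ_[p i]) - X i l‖ < ε) ∧ ‖(w₁ : ℚ_[p i]) - W i‖ < ε := by
  have hw0 : w ≠ 0 := by
    rintro rfl
    obtain ⟨i⟩ := ‹Nonempty κ›
    have := hw i
    rw [Rat.cast_zero, norm_zero] at this
    exact zero_ne_one this
  -- the positive sheet
  have key : ∀ (s : ℝ) (W' : ∀ i, ℚ_[p i]), 0 < s → s ^ 2 = fm c z (fun _ => 1) →
      (∀ i, W' i ^ 2 = fm c (X i) fun _ => 1) →
      ∃ (x₁ : ι → ℚ) (w₁ : ℚ), w₁ ^ 2 = fm c x₁ (fun _ => 1) ∧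
      ((∀ l, |(x₁ l : ℝ) - z l| < ε) ∧ |(w₁ : ℝ) - s| < ε) ∧
      ∀ i, (∀ l, ‖(x₁ l : ℚ_[p i]) - X i l‖ < ε) ∧ ‖(w₁ : ℚ_[p i]) - W' i‖ < ε := by
    intro s W' hs hs2 hW'
    -- continuity of the square root
    have hcont : Continuous fun z : ι → ℝ => Real.sqrt (fm c z fun _ => 1) := by
      unfold fm; fun_prop
    obtain ⟨δ, hδ, hb⟩ := Metric.continuous_iff.1 hcont z ε hε
    obtain ⟨x₁, w₁, h1, h2, h3⟩ := densep_n hinj hF H hkj (x := x) (w := |w|)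
      (by rw [sq_abs]; exact hw2) (abs_pos.2 hw0) (fun i => by
        rcases abs_choice w with h0 | h0
        · rw [h0]; exact hw i
        · rw [h0, Rat.cast_neg, norm_neg]; exact hw i) hW' (half_pos hε)
    obtain ⟨x₂, w₂, g1, g2, g3, g4⟩ := real_moves hinj hF H hkj h1 h2 z Finset.univ
      (min δ (ε / 2)) (lt_min hδ (half_pos hε))
    have hn : ∀ l, |(x₂ l : ℝ) - z l| < min δ (ε / 2) := fun l => g3 l (Finset.mem_univ l)
    refine ⟨x₂, w₂, g1, ⟨fun l => ?_, ?_⟩, fun i => ⟨fun l => ?_, ?_⟩⟩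
    · have := (hn l).trans_le (min_le_right _ _)
      linarith
    · have h5 := hb (fun l => (x₂ l : ℝ)) (by
        rw [dist_pi_lt_iff hδ]
        intro l
        rw [Real.dist_eq]
        exact (hn l).trans_le (min_le_left _ _))
      have e1 : fm c (fun l => (x₂ l : ℝ)) (fun _ => 1) = (w₂ : ℝ) ^ 2 := by
        have h6 := map_fm c (Rat.castHom ℝ) x₂ fun _ => 1
        rw [← g1] at h6
        simpa using h6.symm
      have g2' : (0 : ℝ) < w₂ := by exact_mod_cast g2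
      rw [Real.dist_eq, e1, Real.sqrt_sq g2'.le, ← hs2, Real.sqrt_sq hs.le] at h5
      exact h5
    · have e1 := (g4 i).1 l
      have e2 := (h3 i).1 l
      have := norm_sub_le_norm_sub_add_norm_sub (x₂ l : ℚ_[p i]) (x₁ l) (X i l)
      have := e1.trans_le (min_le_right _ _)
      linarith
    · have e1 := (g4 i).2
      have e2 := (h3 i).2
      have := norm_sub_le_norm_sub_add_norm_sub (w₂ : ℚ_[p i]) w₁ (W' i)
      have := e1.trans_le (min_le_right _ _)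
      linarith
  have hr0 : r ≠ 0 := by
    rintro rfl
    have := hF z
    rw [← hz] at this
    norm_num at this
  rcases lt_or_gt_of_ne hr0 with hneg | hpos
  · obtain ⟨x₁, w₁, h1, ⟨h2, h3⟩, h4⟩ := key (-r) (fun i => -W i) (by linarith)
      (by rw [neg_sq]; exact hz) (fun i => by rw [neg_sq]; exact hX i)
    refine ⟨x₁, -w₁, by rw [neg_sq]; exact h1, ⟨h2, ?_⟩, fun i => ⟨(h4 i).1, ?_⟩⟩
    · have e1 : ((-w₁ : ℚ) : ℝ) - r = -((w₁ : ℝ) - -r) := by push_cast; ring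
      rw [e1, abs_neg]; exact h3
    · have e1 : ((-w₁ : ℚ) : ℚ_[p i]) - W i = -((w₁ : ℚ_[p i]) - -W i) := by push_cast; ring
      rw [e1, norm_neg]; exact (h4 i).2
  · exact key r W hpos hz hX

end Pool.Agent.Y720.MZ
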