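import Pool.Agent.Y720.WF.R6
import Pool.Agent.Y720.WE.N6

/-!
# Special reduction in several variables: existence of positive forms (helper720)
-/

set_option autoImplicit false
set_option linter.unusedVariables false
set_option linter.unusedSectionVars false

open Function

namespace Pool.Agent.Y720.MZ

variable {ι : Type*} [Fintype ι] [DecidableEq ι]

/-- the condition depends on the coefficients modulo the square of the prime -/
lemma SP.stable {p : ℕ} [hp : Fact p.Prime] {c c' : (ι → Fin 5) → ℤ} {ν β a₀ : ℤ} {a : ι → ℤ}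
    (H : SP p c ν β a₀ a) (h : ∀ e, (p : ℤ) ^ 2 ∣ c' e - c e) : SP p c' ν β a₀ a := by
  have hp2 : (p : ℤ) ∣ (p : ℤ) ^ 2 := Dvd.intro_left _ (by ring)
  refine ⟨H.h11, H.hν, H.hβ, H.ha, fun x y => ?_, fun x y hxy hL h0 => ?_⟩
  · have h1 := hp2.trans (fm_cong h x y)
    have h2 := dvd_add h1 (H.h1 x y)
    have e : fm c' x y - (ν * ln a₀ a x y ^ 4 + β * ln a₀ a x y ^ 3 * ∏ i, y i) =
        fm c' x y - fm c x y + (fm c x y - (ν * ln a₀ a x y ^ 4 +
          β * ln a₀ a x y ^ 3 * ∏ i, y i)) := by ring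
    rw [e]; exact h2
  · refine H.h2 x y hxy hL ?_
    have h1 := fm_cong h x y
    exact (dvd_sub_right h0).1 h1

/-- the exponents `0` and `4` only -/
def Cor (e : ι → Fin 5) : Prop := ∀ i, e i = 0 ∨ e i = 4

/-- **A sufficient condition for positivity.** -/
theorem fm_pos {c : (ι → Fin 5) → ℤ} {B L : ℤ} (hB0 : 0 ≤ B) (hB : ∀ e, ¬ Cor e → |c e| ≤ B)
    (hL : ∀ e, Cor e → L ≤ c e) (hLB : (Fintype.card (ι → Fin 5) : ℤ) * B < L) (z : ι → ℝ) :
    0 < fm c z fun _ => 1 := by
  classical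
  set Pp : ℝ := ∏ i, max 1 (z i ^ 4) with hPp
  have hm1 : ∀ i, 1 ≤ max 1 (z i ^ 4) := fun i => le_max_left _ _
  have hPp1 : 0 < Pp := Finset.prod_pos fun i _ => lt_of_lt_of_le one_pos (hm1 i)
  set mon : (ι → Fin 5) → ℝ := fun e => ∏ i, (z i ^ (e i : ℕ) * 1 ^ (4 - (e i : ℕ))) with hmon
  have habs : ∀ e, |mon e| ≤ Pp := by
    intro e
    rw [hmon]
    dsimp only
    rw [Finset.abs_prod]
    refine Finset.prod_le_prod (fun i _ => abs_nonneg _) fun i _ => ?_
    rw [one_pow, mul_one, abs_pow]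
    rcases le_total |z i| 1 with h1 | h1
    · exact (pow_le_one₀ (abs_nonneg _) h1).trans (le_max_left _ _)
    · refine le_trans ?_ (le_max_right _ _)
      have e1 : z i ^ 4 = |z i| ^ 4 := by
        rw [show (4 : ℕ) = 2 * 2 by norm_num, pow_mul, pow_mul, sq_abs]
      rw [e1]
      exact pow_le_pow_right₀ h1 (by have := (e i).2; omega)
  have hcor : ∀ e, Cor e → 0 ≤ mon e := by
    intro e he
    refine Finset.prod_nonneg fun i _ => ?_
    rw [one_pow, mul_one]
    rcases he i with h1 | h1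
    · rw [h1]; simp
    · rw [h1]
      have : ((4 : Fin 5) : ℕ) = 4 := rfl
      rw [this]
      positivity
  set es : ι → Fin 5 := fun i => if 1 ≤ z i ^ 4 then 4 else 0 with hes
  have hesc : Cor es := by
    intro i
    by_cases h1 : 1 ≤ z i ^ 4
    · right; rw [hes]; simp [h1]
    · left; rw [hes]; simp [h1]
  have hesm : mon es = Pp := by
    rw [hmon, hPp]
    dsimp only
    refine Finset.prod_congr rfl fun i _ => ?_
    rw [one_pow, mul_one]
    by_cases h1 : 1 ≤ z i ^ 4
    · have e1 : es i = 4 := by rw [hes]; simp [h1]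
      rw [e1, max_eq_right h1]
      rfl
    · have e1 : es i = 0 := by rw [hes]; simp [h1]
      rw [e1, max_eq_left (not_le.1 h1).le]
      simp
  have hBr : (0 : ℝ) ≤ B := by exact_mod_cast hB0
  have hN : (1 : ℤ) ≤ (Fintype.card (ι → Fin 5) : ℤ) := by
    have : 0 < Fintype.card (ι → Fin 5) := Fintype.card_pos
    omega
  have hL0 : 0 < L := by nlinarith
  have hLr : (0 : ℝ) < L := by exact_mod_cast hL0
  have hLBr : (Fintype.card (ι → Fin 5) : ℝ) * B < L := by exact_mod_cast hLB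
  have hterm : ∀ e, -(B * Pp) + (if e = es then (L + B) * Pp else 0) ≤ (c e : ℝ) * mon e := by
    intro e
    by_cases h1 : e = es
    · rw [if_pos h1, h1, hesm]
      have h2 : (L : ℝ) ≤ c es := by exact_mod_cast hL es hesc
      nlinarith
    · rw [if_neg h1, add_zero]
      by_cases h2 : Cor e
      · have h3 : (L : ℝ) ≤ c e := by exact_mod_cast hL e h2
        have h4 := hcor e h2
        have h5 : 0 ≤ (c e : ℝ) * mon e := mul_nonneg (by linarith) h4
        have h6 : 0 ≤ B * Pp := mul_nonneg hBr hPp1.le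
        linarith
      · have h3 : |(c e : ℝ)| ≤ B := by exact_mod_cast hB e h2
        have h4 : |(c e : ℝ) * mon e| ≤ B * Pp := by
          rw [abs_mul]
          exact mul_le_mul h3 (habs e) (abs_nonneg _) hBr
        exact (abs_le.1 h4).1
  have hsum := Finset.sum_le_sum fun e (_ : e ∈ Finset.univ) => hterm e
  rw [Finset.sum_add_distrib, Finset.sum_const, Finset.sum_ite_eq' Finset.univ es,
    if_pos (Finset.mem_univ _), Finset.card_univ, nsmul_eq_mul] at hsum
  have e1 : fm c z (fun _ => 1) = ∑ e, (c e : ℝ) * mon e := rfl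
  rw [e1]
  refine lt_of_lt_of_le ?_ hsum
  have e2 : (Fintype.card (ι → Fin 5) : ℝ) * -(B * Pp) + (L + B) * Pp =
      (L - (Fintype.card (ι → Fin 5) : ℝ) * B) * Pp + B * Pp := by ring
  rw [e2]
  have h3 : 0 < (L - (Fintype.card (ι → Fin 5) : ℝ) * B) * Pp := mul_pos (by linarith) hPp1
  have h4 : 0 ≤ B * Pp := mul_nonneg hBr hPp1.le
  linarith

/-- **there are many varieties with a positive form** -/
theorem exinp (S : Finset Nat.Primes) (h11 : ∀ p ∈ S, 11 ≤ (p : ℕ)) {m : ℕ} (hm0 : 0 < m)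
    (hm : ∀ p ∈ S, Nat.Coprime m p) {c' : (ι → Fin 5) → ℤ} {r : ℤ}
    (hr : (m : ℤ) ∣ r ^ 2 - c' 0) {P : MvPolynomial (ι → Fin 5) ℂ} (hP : P ≠ 0) :
    ∃ (c : (ι → Fin 5) → ℤ) (w : ℤ), (∀ e, (m : ℤ) ∣ c e - c' e) ∧
      (∀ p ∈ S, ∃ ν : ℤ, SP p c ν (1 - ν) 1 (fun _ => 1)) ∧
      (∀ z : ι → ℝ, 0 < fm c z fun _ => 1) ∧
      w ^ 2 = c 0 ∧ (∀ p ∈ S, ¬ ((p : ℕ) : ℤ) ∣ w) ∧
      MvPolynomial.eval (fun a => ((c a : ℤ) : ℂ)) P ≠ 0 := by
  classical
  obtain ⟨c, w, hcm, hsp, hw, hwp, hPc⟩ := exin S h11 hm0 hm hr hP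
  set M : ℤ := (NS m S : ℤ) with hM
  have hM1 : 1 ≤ M := by
    have := NS_pos hm0 S
    rw [hM]; exact_mod_cast this
  set cT : ℤ → (ι → Fin 5) → ℤ := fun T e =>
    if e = 0 then (w + M * T) ^ 2 else if Cor e then c e + M * T else c e with hcT
  have hcong : ∀ T e, M ∣ cT T e - c e := by
    intro T e
    rw [hcT]
    dsimp only
    split_ifs with h1 h2
    · refine ⟨T * (2 * w + M * T), ?_⟩
      rw [h1]
      linear_combination hw
    · exact ⟨T, by ring⟩
    · simp
  set Q : Polynomial ℂ := MvPolynomial.eval₂ Polynomial.C (fun e : ι → Fin 5 =>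
    if e = 0 then (Polynomial.C (w : ℂ) + Polynomial.C (M : ℂ) * Polynomial.X) ^ 2 else
      if Cor e then Polynomial.C (c e : ℂ) + Polynomial.C (M : ℂ) * Polynomial.X else
        Polynomial.C (c e : ℂ)) P with hQ
  have hev : ∀ T : ℤ, Q.eval (T : ℂ) = MvPolynomial.eval (fun a => ((cT T a : ℤ) : ℂ)) P := by
    intro T
    rw [hQ, ← Polynomial.coe_evalRingHom, MvPolynomial.eval₂_eq_eval_map, ← MvPolynomial.eval₂_eq_eval_map,
      MvPolynomial.hom_eval₂]
    rw [MvPolynomial.eval, MvPolynomial.coe_eval₂Hom]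
    congr 1
    · ext x
      simp
    · funext e
      rw [hcT]
      dsimp only
      split_ifs <;> simp
  have hQ0 : Q ≠ 0 := by
    intro h
    have h1 := hev 0
    rw [h, Polynomial.eval_zero] at h1
    apply hPc
    rw [h1]
    congr 2
    funext e
    rw [hcT]
    dsimp only
    split_ifs with h2 h3
    · rw [h2, ← hw]; ring_nf
    · ring_nf
    · rfl
  set B : ℤ := ∑ e, |c e| with hB
  have hB0 : 0 ≤ B := Finset.sum_nonneg fun e _ => abs_nonneg _
  have hBe : ∀ e, |c e| ≤ B := fun e =>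
    Finset.single_le_sum (f := fun e => |c e|) (fun e _ => abs_nonneg _) (Finset.mem_univ e)
  set N : ℤ := (Fintype.card (ι → Fin 5) : ℤ) with hN
  have hN0 : 0 ≤ N := by positivity
  set T0 : ℤ := N * B + B + |w| + 2 with hT0
  obtain ⟨T, hT, hTQ⟩ : ∃ T : ℤ, T0 ≤ T ∧ Q.eval (T : ℂ) ≠ 0 := by
    by_contra hcon
    push Not at hcon
    apply hQ0
    apply Polynomial.eq_zero_of_infinite_isRoot
    refine Set.Infinite.mono (s := (fun T : ℤ => (T : ℂ)) '' Set.Ici T0) ?_ ?_
    · rintro _ ⟨T, hT, rfl⟩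
      exact hcon T hT
    · exact (Set.Ici_infinite T0).image (Int.cast_injective.injOn)
  refine ⟨cT T, w + M * T, fun e => ?_, fun p hp => ?_, ?_, ?_, fun p hp h => ?_, ?_⟩
  · have h1 := (m_dvd_NS m S).trans (hcong T e)
    have h2 := dvd_add h1 (hcm e)
    rwa [sub_add_sub_cancel] at h2
  · have : Fact (p : ℕ).Prime := ⟨p.2⟩
    obtain ⟨ν, hν⟩ := hsp p hp
    exact ⟨ν, hν.stable fun e => (dvd_NS m hp).trans (hcong T e)⟩
  · have hwa := neg_abs_le w
    have hMT : T ≤ M * T := by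
      have : 0 ≤ T := by
        have := abs_nonneg w
        nlinarith [mul_nonneg hN0 hB0]
      nlinarith
    have hNB := mul_nonneg hN0 hB0
    refine fun z => fm_pos (B := B) (L := T - B - |w|) hB0 (fun e he => ?_) (fun e he => ?_) ?_ z
    · have h0 : e ≠ 0 := by
        intro h
        apply he
        intro i
        left
        rw [h]
        rfl
      rw [hcT]
      dsimp only
      rw [if_neg h0, if_neg he]
      exact hBe e
    · rw [hcT]
      dsimp only
      split_ifs with h1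
      · have h2 : 1 ≤ w + M * T := by
          have := abs_nonneg w
          linarith
        nlinarith
      · have h2 := (abs_le.1 (hBe e)).1
        have := abs_nonneg w
        linarith
    · rw [← hN]
      linarith
  · rw [hcT]; simp
  · have hp2 : ((p : ℕ) : ℤ) ∣ ((p : ℕ) : ℤ) ^ 2 := Dvd.intro_left _ (by ring)
    have h2 : ((p : ℕ) : ℤ) ∣ M * T := (hp2.trans (dvd_NS m hp)).mul_right _
    exact hwp p hp ((Int.dvd_add_left h2).1 h)
  · rw [← hev]
    exact hTQ

end Pool.Agent.Y720.MZ
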